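import Mathlib

/-!
# Splitting of relations along subfields meeting in real fields
-/

set_option autoImplicit false

namespace Pool.Agent.H485R3

open IntermediateField

/-- Functions `ψ i` on a Galois group, invariant under the subgroups fixing `E i`, odd under `c`, with
vanishing sum, vanish if `c` fixes `E i ⊓ ⨆ j ≠ i, E j` for all `i`. -/
theorem split {L : Type*} [Field L] [Algebra ℚ L] [FiniteDimensional ℚ L] [IsGalois ℚ L]
    {I : Type*} [Fintype I] [DecidableEq I] (E : I → IntermediateField ℚ L)
    (ψ : I → (L ≃ₐ[ℚ] L) → ℝ)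
    (h1 : ∀ i, ∀ g h : L ≃ₐ[ℚ] L, h ∈ (E i).fixingSubgroup → ψ i (g * h) = ψ i g)
    (c : L ≃ₐ[ℚ] L) (h2 : ∀ i g, ψ i (g * c) = - ψ i g)
    (h3 : ∀ g, ∑ i, ψ i g = 0)
    (h4 : ∀ i, ∀ z ∈ E i ⊓ ⨆ j ∈ {j | j ≠ i}, E j, c z = z) (i : I) (g : L ≃ₐ[ℚ] L) :
    ψ i g = 0 := by
  classical
  set E' : IntermediateField ℚ L := ⨆ j ∈ {j | j ≠ i}, E j with hE'
  set J : Subgroup (L ≃ₐ[ℚ] L) := (E i).fixingSubgroup ⊔ E'.fixingSubgroup with hJ
  have hinv : ∀ h ∈ J, ∀ g, ψ i (g * h) = ψ i g := by
    intro h hh
    rw [hJ, Subgroup.sup_eq_closure] at hh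
    induction hh using Subgroup.closure_induction with
    | mem h hh =>
      intro g
      rcases hh with hh | hh
      · exact h1 i g h hh
      · have h5 : ∀ g, ψ i g = - ∑ j ∈ Finset.univ.erase i, ψ j g := by
          intro g
          have := h3 g
          rw [← Finset.add_sum_erase _ _ (Finset.mem_univ i)] at this
          linarith
        rw [h5, h5]
        congr 1
        refine Finset.sum_congr rfl fun j hj => ?_
        apply h1
        have hle : E j ≤ E' := by
          rw [hE']
          exact le_iSup₂_of_le j (Finset.ne_of_mem_erase hj) le_rfl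
        exact IntermediateField.fixingSubgroup_le hle hh
    | one => intro g; rw [mul_one]
    | mul a b _ _ ha hb => intro g; rw [← mul_assoc, hb, ha]
    | inv a _ ha => intro g; rw [← ha (g * a⁻¹), inv_mul_cancel_right]
  have hc : c ∈ J := by
    rw [← IntermediateField.fixingSubgroup_fixedField J, IntermediateField.mem_fixingSubgroup_iff]
    intro z hz
    apply h4 i
    rw [IntermediateField.mem_fixedField_iff] at hz
    have hz1 : z ∈ E i := by
      rw [← IsGalois.fixedField_fixingSubgroup (E i), IntermediateField.mem_fixedField_iff]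
      intro f hf
      exact hz f (Subgroup.mem_sup_left hf)
    have hz2 : z ∈ E' := by
      rw [← IsGalois.fixedField_fixingSubgroup E', IntermediateField.mem_fixedField_iff]
      intro f hf
      exact hz f (Subgroup.mem_sup_right hf)
    exact IntermediateField.mem_inf.2 ⟨hz1, hz2⟩
  have h6 := hinv c hc g
  rw [h2] at h6
  linarith

end Pool.Agent.H485R3
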