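import Mathlib
import Pool.Agent.H925R2.Bridge
import Pool.Agent.H485R3.Split

/-!
# Multiplicative relations between roots of several Weil polynomials
-/

set_option autoImplicit false

namespace Pool.Agent.H485R3

open Polynomial Pool.Agent.H925R2

/-- Two embeddings of a normal extension differ by an automorphism. -/
theorem exists_gal {L E : Type*} [Field L] [Algebra ℚ L] [Normal ℚ L] [Field E]
    [Algebra ℚ E] (τ ψ : L →ₐ[ℚ] E) : ∃ σ : L ≃ₐ[ℚ] L, ∀ z, ψ z = τ (σ z) := by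
  let _ : Algebra L E := τ.toRingHom.toAlgebra
  have _ : IsScalarTower ℚ L E := IsScalarTower.of_algebraMap_eq fun x =>
    (τ.commutes x).symm
  refine ⟨AlgEquiv.ofBijective (ψ.restrictNormal L)
    (AlgHom.normal_bijective ℚ L L _), fun z => ?_⟩
  exact (ψ.restrictNormal_commutes L z).symm

/-- Complex conjugation on a normal extension. -/
theorem exists_conj {L : Type*} [Field L] [Algebra ℚ L] [Normal ℚ L] (τ : L →ₐ[ℚ] ℂ) :
    ∃ c : L ≃ₐ[ℚ] L, ∀ z, starRingEnd ℂ (τ z) = τ (c z) := by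
  let cc : ℂ →ₐ[ℚ] ℂ := ((Complex.conjAe.restrictScalars ℚ : ℂ ≃ₐ[ℚ] ℂ) : ℂ →ₐ[ℚ] ℂ)
  exact exists_gal τ (cc.comp τ)

section

variable {L : Type*} [Field L] [Algebra ℚ L] (τ : L →ₐ[ℚ] ℂ)

include τ in
theorem root_ne {f : ℚ[X]} {q : ℚ} (hq : 0 < q) (hweil : ∀ z : ℂ, aeval z f = 0 → ‖z‖ ^ 2 = (q : ℝ))
    {z : L} (hz : aeval z f = 0) : z ≠ 0 := by
  have h1 : aeval (τ z) f = 0 := by
    rw [aeval_algHom_apply, hz, map_zero]
  have h2 := hweil _ h1
  rintro rfl
  rw [map_zero, norm_zero] at h2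
  have : (q : ℝ) = 0 := by rw [← h2]; simp
  exact hq.ne' (by exact_mod_cast this)

theorem conj_root (c : L ≃ₐ[ℚ] L) (hc : ∀ z, starRingEnd ℂ (τ z) = τ (c z)) {f : ℚ[X]} {q : ℚ}
    (hq : 0 < q) (hweil : ∀ z : ℂ, aeval z f = 0 → ‖z‖ ^ 2 = (q : ℝ))
    {z : L} (hz : aeval z f = 0) : c z = (q : L) / z := by
  apply (τ : L →+* ℂ).injective
  change τ (c z) = τ _
  have h1 : aeval (τ z) f = 0 := by
    rw [aeval_algHom_apply, hz, map_zero]
  have h2 := hweil _ h1
  have h3 : τ z ≠ 0 := (map_ne_zero τ).2 (root_ne τ hq hweil hz)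
  rw [← hc, map_div₀, map_ratCast, eq_div_iff h3, mul_comm, Complex.mul_conj,
    Complex.normSq_eq_norm_sq, h2]
  simp

theorem root_div (c : L ≃ₐ[ℚ] L) (hc : ∀ z, starRingEnd ℂ (τ z) = τ (c z)) {f : ℚ[X]} {q : ℚ}
    (hq : 0 < q) (hweil : ∀ z : ℂ, aeval z f = 0 → ‖z‖ ^ 2 = (q : ℝ))
    {z : L} (hz : aeval z f = 0) : aeval ((q : L) / z) f = 0 := by
  rw [← conj_root τ c hc hq hweil hz]
  have : aeval ((c : L →ₐ[ℚ] L) z) f = 0 := by rw [aeval_algHom_apply, hz, map_zero]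
  exact this

end

/-- The basic relation coming from one multiplicative relation and one embedding. -/
theorem sum_dev {L : Type*} [Field L] [Algebra ℚ L] (p : ℕ) [Fact p.Prime] {I : Type*}
    {n : ℕ} (t : Fin n → I) (q : I → ℚ) (hq : ∀ i, 0 < q i) (W : Fin n → L) (hW : ∀ k, W k ≠ 0)
    (s : ℕ) (hs : 0 < s) (hrel : (∏ k, W k) ^ (2 * s) = (∏ k, (q (t k) : L)) ^ s)
    (e : L →ₐ[ℚ] PadicAlgCl p) :
    ∑ k, dev p (q (t k)) (e (W k)) = 0 := by
  have h1 := congrArg (fun z => Real.log ‖e z‖) hrel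
  simp only [map_pow, map_prod, norm_pow, norm_prod, Real.log_pow, map_ratCast] at h1
  rw [Real.log_prod (fun k _ => norm_ne_zero_iff.2 ((map_ne_zero e).2 (hW k))),
    Real.log_prod (fun k _ => norm_ne_zero_iff.2 (by exact_mod_cast (hq (t k)).ne'))] at h1
  have hs' : (0 : ℝ) < s := by exact_mod_cast hs
  push_cast at h1
  have h2 : 2 * ∑ k, Real.log ‖e (W k)‖ - ∑ k, Real.log ‖(q (t k) : PadicAlgCl p)‖ = 0 := by
    have h3 : (s : ℝ) * (2 * ∑ k, Real.log ‖e (W k)‖ -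
        ∑ k, Real.log ‖(q (t k) : PadicAlgCl p)‖) = 0 := by linarith
    exact (mul_eq_zero.1 h3).resolve_left hs'.ne'
  unfold dev
  rw [Finset.sum_sub_distrib, ← Finset.mul_sum]
  exact h2

/-- **Splitting of relations.** -/
theorem split_dev {L : Type*} [Field L] [Algebra ℚ L] [FiniteDimensional ℚ L] [IsGalois ℚ L]
    (p : ℕ) [Fact p.Prime] {I : Type*} [Fintype I] [DecidableEq I]
    (f : I → ℚ[X]) (q : I → ℚ) (hq : ∀ i, 0 < q i)
    (hweil : ∀ i, ∀ z : ℂ, aeval z (f i) = 0 → ‖z‖ ^ 2 = (q i : ℝ))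
    (τ : L →ₐ[ℚ] ℂ) (c : L ≃ₐ[ℚ] L) (hc : ∀ z, starRingEnd ℂ (τ z) = τ (c z))
    (e : L →ₐ[ℚ] PadicAlgCl p)
    (hreal : ∀ i, ∀ z ∈ IntermediateField.adjoin ℚ {x : L | aeval x (f i) = 0 ∧ dev p (q i) (e x) ≠ 0} ⊓
      ⨆ j ∈ {j | j ≠ i}, IntermediateField.adjoin ℚ {x : L | aeval x (f j) = 0 ∧ dev p (q j) (e x) ≠ 0},
      c z = z)
    {n : ℕ} (t : Fin n → I) (W : Fin n → L) (hW : ∀ k, aeval (W k) (f (t k)) = 0)
    (s : ℕ) (hs : 0 < s) (hrel : (∏ k, W k) ^ (2 * s) = (∏ k, (q (t k) : L)) ^ s)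
    (i : I) (g : L ≃ₐ[ℚ] L) :
    ∑ k with t k = i, dev p (q i) (e (g (W k))) = 0 := by
  classical
  set E : I → IntermediateField ℚ L := fun i =>
    IntermediateField.adjoin ℚ {x : L | aeval x (f i) = 0 ∧ dev p (q i) (e x) ≠ 0} with hE
  let ψ : I → (L ≃ₐ[ℚ] L) → ℝ := fun i g => ∑ k with t k = i, dev p (q i) (e (g⁻¹ (W k)))
  have hroot : ∀ (g : L ≃ₐ[ℚ] L) (i : I) (z : L), aeval z (f i) = 0 → aeval (g z) (f i) = 0 := by
    intro g i z hz
    have : aeval ((g : L →ₐ[ℚ] L) z) (f i) = 0 := by rw [aeval_algHom_apply, hz, map_zero]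
    exact this
  have key := split E ψ (by
    intro i g h hh
    refine Finset.sum_congr rfl fun k hk => ?_
    rw [Finset.mem_filter] at hk
    have hWk : aeval (g⁻¹ (W k)) (f i) = 0 := hroot _ _ _ (by rw [← hk.2]; exact hW k)
    rw [mul_inv_rev, AlgEquiv.mul_apply]
    set y := g⁻¹ (W k) with hy
    have hfix : ∀ z ∈ E i, h z = z := fun z hz => (IntermediateField.mem_fixingSubgroup_iff _ _).1 hh z hz
    by_cases h0 : dev p (q i) (e y) = 0
    · by_cases h1 : dev p (q i) (e (h⁻¹ y)) = 0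
      · rw [h0, h1]
      · exfalso
        have h2 : h⁻¹ y ∈ E i := IntermediateField.subset_adjoin _ _ ⟨hroot _ _ _ hWk, h1⟩
        have h3 := hfix _ h2
        rw [← AlgEquiv.mul_apply, mul_inv_cancel, AlgEquiv.one_apply] at h3
        rw [← h3] at h1
        exact h1 h0
    · have h2 : y ∈ E i := IntermediateField.subset_adjoin _ _ ⟨hWk, h0⟩
      have h3 : h⁻¹ y = y := by
        have h4 := hfix _ h2
        conv_lhs => rw [← h4]
        rw [← AlgEquiv.mul_apply, inv_mul_cancel, AlgEquiv.one_apply]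
      rw [h3]) c (by
    intro i g
    change ∑ k with t k = i, dev p (q i) (e ((g * c)⁻¹ (W k))) =
      - ∑ k with t k = i, dev p (q i) (e (g⁻¹ (W k)))
    rw [← Finset.sum_neg_distrib]
    refine Finset.sum_congr rfl fun k hk => ?_
    rw [Finset.mem_filter] at hk
    have hWk : aeval (g⁻¹ (W k)) (f i) = 0 := hroot _ _ _ (by rw [← hk.2]; exact hW k)
    rw [mul_inv_rev, AlgEquiv.mul_apply]
    set y := g⁻¹ (W k) with hy
    have h1 : c⁻¹ y = (q i : L) / y := by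
      have h2 : c ((q i : L) / y) = y := by
        rw [map_div₀, map_ratCast, conj_root τ c hc (hq i) (hweil i) hWk]
        have h3 := root_ne τ (hq i) (hweil i) hWk
        have h4 : (q i : L) ≠ 0 := by
          have : Function.Injective (algebraMap ℚ L) := (algebraMap ℚ L).injective
          intro h
          have h5 : algebraMap ℚ L (q i) = 0 := by rw [← h]; simp
          exact (hq i).ne' ((map_eq_zero _).1 h5)
        field_simp
      conv_lhs => rw [← h2]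
      rw [← AlgEquiv.mul_apply, inv_mul_cancel, AlgEquiv.one_apply]
    rw [h1, map_div₀, map_ratCast]
    exact dev_inv p (hq i).ne' _ ((map_ne_zero e).2 (root_ne τ (hq i) (hweil i) hWk))) (by
    intro g
    have h1 := sum_dev p t q hq (fun k => g⁻¹ (W k)) (fun k =>
      (map_ne_zero g⁻¹).2 (root_ne τ (hq (t k)) (hweil (t k)) (hW k))) s hs (by
      have h2 := congrArg (fun z => g⁻¹ z) hrel
      simp only [map_pow, map_prod, map_ratCast] at h2
      exact h2) e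
    rw [← Finset.sum_fiberwise Finset.univ t] at h1
    rw [← h1]
    refine Finset.sum_congr rfl fun i _ => Finset.sum_congr rfl fun k hk => ?_
    rw [Finset.mem_filter] at hk
    rw [hk.2]) (by
    intro i z hz
    exact hreal i z hz) i g⁻¹
  change ∑ k with t k = i, dev p (q i) (e (g⁻¹⁻¹ (W k))) = 0 at key
  rw [inv_inv] at key
  exact key

end Pool.Agent.H485R3
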