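import Mathlib
import Pool.Agent.H485R3.Rel

/-!
# `r`-adically dominant slopes
-/

set_option autoImplicit false

namespace Pool.Agent.H485R3

open Polynomial Pool.Agent.H925R2

theorem exists_gal_root {L : Type*} [Field L] [Algebra ℚ L] [Normal ℚ L] {f : ℚ[X]}
    (hf : Irreducible f) {x y : L} (hx : aeval x f = 0) (hy : aeval y f = 0) :
    ∃ g : L ≃ₐ[ℚ] L, g x = y := by
  have hx' := minpoly.eq_of_irreducible hf hx
  have hy' := minpoly.eq_of_irreducible hf hy
  obtain ⟨g, hg⟩ := (Normal.minpoly_eq_iff_mem_orbit L).mp (hy'.symm.trans hx')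
  exact ⟨g, hg⟩

theorem balanced_of_dominant {L : Type*} [Field L] [Algebra ℚ L] [FiniteDimensional ℚ L]
    [IsGalois ℚ L] (p : ℕ) [Fact p.Prime] {f : ℚ[X]} (hf : Irreducible f) {q : ℚ} (hq : 0 < q)
    (hweil : ∀ z : ℂ, aeval z f = 0 → ‖z‖ ^ 2 = (q : ℝ))
    (τ : L →ₐ[ℚ] ℂ) (c : L ≃ₐ[ℚ] L) (hc : ∀ z, starRingEnd ℂ (τ z) = τ (c z))
    (e : L →ₐ[ℚ] PadicAlgCl p) (κ : ℝ) (hκ : κ ≠ 0) (u : L → ℚ)
    (hu : ∀ x, aeval x f = 0 → dev p q (e x) = κ * u x)
    (r : ℕ) [Fact r.Prime] (β : L) (hβ : aeval β f = 0) (huβ : u β ≠ 0)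
    (hdom : ∀ x, aeval x f = 0 → x ≠ β → x ≠ q / β → padicNorm r (u x) < padicNorm r (u β))
    {ι : Type*} [DecidableEq L] (S : Finset ι) (W : ι → L) (hW : ∀ k ∈ S, aeval (W k) f = 0)
    (hsum : ∀ g : L ≃ₐ[ℚ] L, ∑ k ∈ S, dev p q (e (g (W k))) = 0)
    (z : L) (hz : aeval z f = 0) :
    (S.filter fun k => W k = z).card = (S.filter fun k => W k = q / z).card := by
  classical
  set σ : L → L := fun z => (q : L) / z with hσ
  have hroot : ∀ (g : L ≃ₐ[ℚ] L) (z : L), aeval z f = 0 → aeval (g z) f = 0 := by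
    intro g z hz
    have : aeval ((g : L →ₐ[ℚ] L) z) f = 0 := by rw [aeval_algHom_apply, hz, map_zero]
    exact this
  have hq0 : (q : L) ≠ 0 := by
    intro h
    have h5 : algebraMap ℚ L q = 0 := by rw [← h]; simp
    exact hq.ne' ((map_eq_zero _).1 h5)
  have hne0 : ∀ z : L, aeval z f = 0 → z ≠ 0 := fun z hz => root_ne τ hq hweil hz
  have hσr : ∀ z, aeval z f = 0 → aeval (σ z) f = 0 := fun z hz => root_div τ c hc hq hweil hz
  have hσσ : ∀ z, aeval z f = 0 → σ (σ z) = z := by
    intro z hz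
    have := hne0 z hz
    simp only [hσ]
    field_simp
  have hgσ : ∀ (g : L ≃ₐ[ℚ] L) z, g (σ z) = σ (g z) := by
    intro g z
    simp only [hσ]
    rw [map_div₀, map_ratCast]
  have huσ : ∀ z, aeval z f = 0 → u (σ z) = - u z := by
    intro z hz
    have h1 := hu _ (hσr z hz)
    simp only [hσ] at h1
    rw [map_div₀, map_ratCast, dev_inv p hq.ne' _ ((map_ne_zero e).2 (hne0 z hz)), hu z hz,
      ← mul_neg] at h1
    have h2 := mul_left_cancel₀ hκ h1
    exact_mod_cast h2.symm
  have hσβ : σ β ≠ β := by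
    intro h
    have h1 := huσ β hβ
    rw [h] at h1
    exact huβ (by linarith)
  have htrans : ∀ z, aeval z f = 0 → ∃ g : L ≃ₐ[ℚ] L, g z = β := fun z hz =>
    exists_gal_root hf hz hβ
  have hσz : ∀ z, aeval z f = 0 → σ z ≠ z := by
    intro z hz h
    obtain ⟨g, hg⟩ := htrans z hz
    apply hσβ
    rw [← hg, ← hgσ, h]
  set R : Finset L := (f.aroots L).toFinset with hR
  have hmem : ∀ z, z ∈ R ↔ aeval z f = 0 := by
    intro z
    rw [hR, Multiset.mem_toFinset, mem_aroots]
    exact ⟨fun h => h.2, fun h => ⟨hf.ne_zero, h⟩⟩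
  set N : L → ℚ := fun z => ((S.filter fun k => W k = z).card : ℚ) with hN
  have hsum1 : ∀ g : L ≃ₐ[ℚ] L, ∑ x ∈ R, N x * u (g x) = 0 := by
    intro g
    have h1 := hsum g
    have h2 : ∀ k ∈ S, dev p q (e (g (W k))) = κ * ((u (g (W k)) : ℚ) : ℝ) := fun k hk =>
      hu _ (hroot g _ (hW k hk))
    rw [Finset.sum_congr rfl h2, ← Finset.mul_sum] at h1
    have h3 := (mul_eq_zero.1 h1).resolve_left hκ
    have h4 : ∑ k ∈ S, u (g (W k)) = 0 := by exact_mod_cast h3
    rw [← Finset.sum_fiberwise_of_maps_to (t := R) (g := W) (fun k hk => (hmem _).2 (hW k hk))] at h4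
    rw [← h4]
    refine Finset.sum_congr rfl fun x _ => ?_
    rw [Finset.sum_congr rfl (fun k hk => by rw [(Finset.mem_filter.1 hk).2]),
      Finset.sum_const, nsmul_eq_mul]
  set P : L → Prop := fun z => WellOrderingRel z (σ z) with hP
  have hP1 : ∀ z, aeval z f = 0 → P z → ¬ P (σ z) := by
    intro z hz h1 h2
    simp only [hP] at h1 h2
    rw [hσσ z hz] at h2
    exact asymm_of WellOrderingRel h1 h2
  have hP2 : ∀ z, aeval z f = 0 → ¬ P z → P (σ z) := by
    intro z hz h1
    simp only [hP] at h1 ⊢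
    rw [hσσ z hz]
    rcases trichotomous_of WellOrderingRel z (σ z) with h | h | h
    · exact absurd h h1
    · exact absurd h.symm (hσz z hz)
    · exact h
  set a : L → ℚ := fun z => N z - N (σ z) with ha
  have haσ : ∀ z, aeval z f = 0 → a (σ z) = - a z := by
    intro z hz
    simp only [ha]
    rw [hσσ z hz]
    ring
  have hsum2 : ∀ g : L ≃ₐ[ℚ] L, ∑ x ∈ R.filter P, a x * u (g x) = 0 := by
    intro g
    have h1 := hsum1 g
    rw [← Finset.sum_filter_add_sum_filter_not R P] at h1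
    have h2 : ∑ x ∈ R.filter (fun x => ¬ P x), N x * u (g x) =
        ∑ x ∈ R.filter P, - (N (σ x) * u (g x)) := by
      refine Finset.sum_bij' (fun x _ => σ x) (fun x _ => σ x) ?_ ?_ ?_ ?_ ?_
      · intro x hx
        rw [Finset.mem_filter, hmem] at hx ⊢
        exact ⟨hσr x hx.1, hP2 x hx.1 hx.2⟩
      · intro x hx
        rw [Finset.mem_filter, hmem] at hx ⊢
        exact ⟨hσr x hx.1, hP1 x hx.1 hx.2⟩
      · intro x hx
        rw [Finset.mem_filter, hmem] at hx
        exact hσσ x hx.1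
      · intro x hx
        rw [Finset.mem_filter, hmem] at hx
        exact hσσ x hx.1
      · intro x hx
        rw [Finset.mem_filter, hmem] at hx
        rw [hσσ x hx.1, hgσ, huσ _ (hroot g x hx.1)]
        ring
    rw [h2, ← Finset.sum_add_distrib] at h1
    rw [← h1]
    refine Finset.sum_congr rfl fun x _ => ?_
    simp only [ha]
    ring
  have hazero : ∀ z, aeval z f = 0 → a z = 0 := by
    by_contra hcon
    push Not at hcon
    obtain ⟨z1, hz1, haz1⟩ := hcon
    obtain ⟨z0', hz0', hmax'⟩ := Finset.exists_max_image R (fun z => padicNorm r (a z))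
      ⟨z1, (hmem z1).2 hz1⟩
    obtain ⟨z0, hz0, hPz0, hmax⟩ : ∃ z0, aeval z0 f = 0 ∧ P z0 ∧
        ∀ x, aeval x f = 0 → padicNorm r (a x) ≤ padicNorm r (a z0) := by
      by_cases hP0 : P z0'
      · exact ⟨z0', (hmem _).1 hz0', hP0, fun x hx => hmax' x ((hmem x).2 hx)⟩
      · refine ⟨σ z0', hσr _ ((hmem _).1 hz0'), hP2 _ ((hmem _).1 hz0') hP0, fun x hx => ?_⟩
        rw [haσ _ ((hmem _).1 hz0'), padicNorm.neg]
        exact hmax' x ((hmem x).2 hx)
    have ha0 : a z0 ≠ 0 := by
      intro h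
      have h1 := hmax z1 hz1
      rw [h, padicNorm.zero] at h1
      exact haz1 (padicNorm.zero_of_padicNorm_eq_zero (le_antisymm h1 (padicNorm.nonneg _)))
    obtain ⟨g, hg⟩ := htrans z0 hz0
    have h1 := hsum2 g
    have hz0H : z0 ∈ R.filter P := Finset.mem_filter.2 ⟨(hmem z0).2 hz0, hPz0⟩
    rw [← Finset.add_sum_erase _ _ hz0H, hg] at h1
    have hpos : 0 < padicNorm r (a z0 * u β) := by
      refine lt_of_le_of_ne (padicNorm.nonneg _) ?_
      intro h
      exact mul_ne_zero ha0 huβ (padicNorm.zero_of_padicNorm_eq_zero h.symm)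
    have h2 : padicNorm r (∑ x ∈ (R.filter P).erase z0, a x * u (g x)) <
        padicNorm r (a z0 * u β) := by
      refine padicNorm.sum_lt' (fun x hx => ?_) hpos
      have hx1 := Finset.ne_of_mem_erase hx
      have hx2 := Finset.mem_of_mem_erase hx
      rw [Finset.mem_filter, hmem] at hx2
      rw [padicNorm.mul, padicNorm.mul]
      have h3 : padicNorm r (u (g x)) < padicNorm r (u β) := by
        refine hdom _ (hroot g x hx2.1) ?_ ?_
        · intro h
          exact hx1 (g.injective (h.trans hg.symm))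
        · intro h
          have h4 : g x = g (σ z0) := by rw [hgσ, hg, h]
          have h5 : x = σ z0 := g.injective h4
          rw [h5] at hx2
          exact hP1 z0 hz0 hPz0 hx2.2
      have h6 : 0 < padicNorm r (a z0) :=
        lt_of_le_of_ne (padicNorm.nonneg _) fun h =>
          ha0 (padicNorm.zero_of_padicNorm_eq_zero h.symm)
      calc padicNorm r (a x) * padicNorm r (u (g x))
          ≤ padicNorm r (a z0) * padicNorm r (u (g x)) :=
            mul_le_mul_of_nonneg_right (hmax x hx2.1) (padicNorm.nonneg _)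
        _ < padicNorm r (a z0) * padicNorm r (u β) := mul_lt_mul_of_pos_left h3 h6
    have h7 : a z0 * u β = - ∑ x ∈ (R.filter P).erase z0, a x * u (g x) := by linarith
    rw [h7, padicNorm.neg] at h2
    exact lt_irrefl _ h2
  have h8 := hazero z hz
  simp only [ha, hN] at h8
  have h9 : ((S.filter fun k => W k = z).card : ℚ) = ((S.filter fun k => W k = σ z).card : ℚ) := by
    linarith
  exact_mod_cast h9

end Pool.Agent.H485R3
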