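import Mathlib
import Pool.Agent.H485R3.Rel

/-!
# Transfer of the hypothesis on fields to a common splitting field
-/

set_option autoImplicit false

namespace Pool.Agent.H485R3

open Polynomial Pool.Agent.H925R2

theorem exists_root_lift {L E : Type*} [Field L] [Algebra ℚ L] [Field E] [Algebra ℚ E] {f : ℚ[X]}
    (hf : f ≠ 0) (hs : (f.map (algebraMap ℚ L)).Splits) (j : L →ₐ[ℚ] E) (y : E)
    (hy : aeval y f = 0) : ∃ x : L, aeval x f = 0 ∧ j x = y := by
  have h1 : y ∈ f.rootSet E := mem_rootSet.2 ⟨hf, hy⟩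
  rw [← hs.image_rootSet j] at h1
  obtain ⟨x, hx, hxy⟩ := h1
  exact ⟨x, (mem_rootSet.1 hx).2, hxy⟩

theorem exists_splitting {I : Type*} [Fintype I] (f : I → ℚ[X]) (hf : ∀ i, f i ≠ 0) :
    ∃ (L : Type) (_ : Field L) (_ : Algebra ℚ L), FiniteDimensional ℚ L ∧ IsGalois ℚ L ∧
      ∀ i, ((f i).map (algebraMap ℚ L)).Splits := by
  set g : ℚ[X] := ∏ i, f i with hg
  have h1 : IsSplittingField ℚ g.SplittingField g := by
    have := IsSplittingField.splittingField g
    exact this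
  refine ⟨g.SplittingField, inferInstance, inferInstance, ?_, ?_, fun i => ?_⟩
  · exact IsSplittingField.finiteDimensional g.SplittingField g
  · rw [isGalois_iff]
    exact ⟨inferInstance, Normal.of_isSplittingField g⟩
  · refine (IsSplittingField.splits g.SplittingField g).of_dvd ?_ ?_
    · exact (Polynomial.map_ne_zero_iff (algebraMap ℚ _).injective).2
        (Finset.prod_ne_zero_iff.2 fun i _ => hf i)
    · exact Polynomial.map_dvd _ (Finset.dvd_prod_of_mem f (Finset.mem_univ i))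

theorem stable_comap {L E : Type*} [Field L] [Algebra ℚ L] [Field E] [Algebra ℚ E]
    (e : L →ₐ[ℚ] E) (M : IntermediateField ℚ E)
    (hM : ∀ x ∈ M, ∀ y : E, aeval y (minpoly ℚ x) = 0 → y ∈ M) (g : L ≃ₐ[ℚ] L) (z : L)
    (hz : z ∈ M.comap e) : g z ∈ M.comap e := by
  change e (g z) ∈ M
  refine hM (e z) hz _ ?_
  rw [minpoly.algHom_eq e e.injective z, aeval_algHom_apply]
  have h1 : aeval ((g : L →ₐ[ℚ] L) z) (minpoly ℚ z) = 0 := by
    rw [aeval_algHom_apply, minpoly.aeval, map_zero]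
  have h2 : aeval (g z) (minpoly ℚ z) = 0 := h1
  rw [h2, map_zero]

theorem real_transfer {L : Type*} [Field L] [Algebra ℚ L] [Normal ℚ L]
    (p : ℕ) [Fact p.Prime] {I : Type*}
    (τ : L →ₐ[ℚ] ℂ) (c : L ≃ₐ[ℚ] L) (hc : ∀ z, starRingEnd ℂ (τ z) = τ (c z))
    (e : L →ₐ[ℚ] PadicAlgCl p) (S : I → Set (PadicAlgCl p))
    (hS : ∀ i, ∀ α ∈ S i, ∃ x : L, e x = α)
    (K M : I → IntermediateField ℚ (PadicAlgCl p))
    (hK : ∀ i, K i = IntermediateField.adjoin ℚ (S i))
    (hreal : ∀ i, ∀ z ∈ K i ⊓ ⨆ j ∈ {j | j ≠ i}, M i ⊓ K j, ∀ w : ℂ,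
      aeval w (minpoly ℚ z) = 0 → w.im = 0) :
    ∀ i, ∀ z ∈ IntermediateField.adjoin ℚ (e ⁻¹' S i) ⊓
      ⨆ j ∈ {j | j ≠ i}, (M i).comap e ⊓ IntermediateField.adjoin ℚ (e ⁻¹' S j), c z = z := by
  intro i z hz
  have hmap : ∀ i, (IntermediateField.adjoin ℚ (e ⁻¹' S i)).map e = K i := by
    intro i
    rw [IntermediateField.adjoin_map, hK i]
    congr 1
    ext α
    constructor
    · rintro ⟨x, hx, rfl⟩
      exact hx
    · intro h1
      obtain ⟨x, rfl⟩ := hS i α h1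
      exact ⟨x, h1, rfl⟩
  have h1 : e z ∈ K i ⊓ ⨆ j ∈ {j | j ≠ i}, M i ⊓ K j := by
    rw [IntermediateField.mem_inf] at hz ⊢
    refine ⟨?_, ?_⟩
    · rw [← hmap i]
      exact ⟨z, hz.1, rfl⟩
    · have h2 : (⨆ j ∈ {j | j ≠ i}, (M i).comap e ⊓
          IntermediateField.adjoin ℚ (e ⁻¹' S j)).map e ≤ ⨆ j ∈ {j | j ≠ i}, M i ⊓ K j := by
        simp only [IntermediateField.map_iSup]
        refine iSup₂_mono fun j _ => ?_
        rintro x ⟨y, hy, rfl⟩
        have hy' := IntermediateField.mem_inf.1 hy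
        rw [IntermediateField.mem_inf]
        refine ⟨hy'.1, ?_⟩
        rw [← hmap j]
        exact ⟨y, hy'.2, rfl⟩
      exact h2 ⟨z, hz.2, rfl⟩
  have h2 : aeval (τ z) (minpoly ℚ (e z)) = 0 := by
    rw [minpoly.algHom_eq e e.injective z, aeval_algHom_apply, minpoly.aeval, map_zero]
  have h3 := hreal i (e z) h1 (τ z) h2
  apply (τ : L →+* ℂ).injective
  change τ (c z) = τ z
  rw [← hc]
  exact Complex.conj_eq_iff_im.2 h3

theorem adjoin_le_comap {L : Type*} [Field L] [Algebra ℚ L] {E : Type*} [Field E] [Algebra ℚ E]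
    (e : L →ₐ[ℚ] E) (S : Set E) (K M : IntermediateField ℚ E)
    (hK : K = IntermediateField.adjoin ℚ S) (hKM : K ≤ M) :
    IntermediateField.adjoin ℚ (e ⁻¹' S) ≤ M.comap e := by
  rw [IntermediateField.adjoin_le_iff]
  intro x hx
  change e x ∈ M
  apply hKM
  rw [hK]
  exact IntermediateField.subset_adjoin _ _ hx

end Pool.Agent.H485R3
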