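import Mathlib
import Pool.Agent.H485R3.Rel

/-!
# Integrality from all `l`-adic absolute values, roots of unity in number fields
-/

set_option autoImplicit false

namespace Pool.Agent.H485R3

open Polynomial

theorem coeff_prod_norm_le {F : Type*} [NormedField F] [IsUltrametricDist F] (s : Multiset F)
    (hs : ∀ r ∈ s, ‖r‖ ≤ 1) : ∀ k, ‖((s.map (fun r => X - C r)).prod).coeff k‖ ≤ 1 := by
  induction s using Multiset.induction with
  | empty =>
    intro k
    rw [Multiset.map_zero, Multiset.prod_zero, coeff_one]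
    split_ifs <;> simp
  | cons a s ih =>
    intro k
    have ih' := ih fun r hr => hs r (Multiset.mem_cons_of_mem hr)
    rw [Multiset.map_cons, Multiset.prod_cons, sub_mul, coeff_sub, coeff_C_mul, sub_eq_add_neg]
    refine (IsUltrametricDist.norm_add_le_max _ _).trans (max_le ?_ ?_)
    · cases k with
      | zero => simp
      | succ k =>
        rw [coeff_X_mul]
        exact ih' k
    · rw [norm_neg, norm_mul]
      exact mul_le_one₀ (hs a (Multiset.mem_cons_self a s)) (norm_nonneg _) (ih' k)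

theorem den_eq_one_of_norm_le (a : ℚ)
    (h : ∀ (l : ℕ) [Fact l.Prime], ‖((a : ℚ) : ℚ_[l])‖ ≤ 1) : a.den = 1 := by
  by_contra hne
  obtain ⟨l, hl, hd⟩ := Nat.exists_prime_and_dvd hne
  have : Fact l.Prime := ⟨hl⟩
  have h1 : ‖((a.num : ℤ) : ℚ_[l])‖ < 1 := by
    have h2 : ((a.num : ℤ) : ℚ_[l]) = (a : ℚ_[l]) * ((a.den : ℤ) : ℚ_[l]) := by
      have h5 := congrArg (Rat.cast (K := ℚ_[l])) (Rat.mul_den_eq_num a)
      push_cast at h5 ⊢
      exact h5.symm
    rw [h2, norm_mul]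
    have h3 : ‖((a.den : ℤ) : ℚ_[l])‖ < 1 :=
      Padic.norm_intCast_lt_one_iff.2 (by exact_mod_cast hd)
    calc _ ≤ 1 * ‖((a.den : ℤ) : ℚ_[l])‖ := mul_le_mul_of_nonneg_right (h l) (norm_nonneg _)
      _ < 1 := by rw [one_mul]; exact h3
  have h4 := Padic.norm_intCast_lt_one_iff.1 h1
  have h5 : l ∣ a.num.natAbs := Int.natCast_dvd.1 h4
  have h6 := Nat.dvd_gcd h5 hd
  rw [a.reduced] at h6
  exact hl.one_lt.ne' (Nat.dvd_one.1 h6)

theorem isIntegral_of_norm_le {L : Type*} [Field L] [Algebra ℚ L] [Normal ℚ L] (x : L)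
    (h : ∀ (l : ℕ) [Fact l.Prime] (e : L →ₐ[ℚ] PadicAlgCl l), ‖e x‖ ≤ 1) : IsIntegral ℤ x := by
  set f := minpoly ℚ x with hf
  have hx : IsIntegral ℚ x := Algebra.IsIntegral.isIntegral x
  have hmonic : f.Monic := minpoly.monic hx
  have hcoef : ∀ k, (f.coeff k).den = 1 := by
    intro k
    apply den_eq_one_of_norm_le
    intro l _
    let e0 : L →ₐ[ℚ] PadicAlgCl l := IsAlgClosed.lift
    have hsp : (f.map (algebraMap ℚ (PadicAlgCl l))).Splits := IsAlgClosed.splits _
    have h1 : f.map (algebraMap ℚ (PadicAlgCl l)) =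
        ((f.aroots (PadicAlgCl l)).map (fun r => X - C r)).prod :=
      hsp.eq_prod_roots_of_monic (hmonic.map _)
    have h2 : ∀ r ∈ f.aroots (PadicAlgCl l), ‖r‖ ≤ 1 := by
      intro r hr
      rw [mem_aroots] at hr
      have h3 : r ∈ f.rootSet (PadicAlgCl l) := mem_rootSet.2 ⟨hmonic.ne_zero, hr.2⟩
      have hspL : (f.map (algebraMap ℚ L)).Splits := Normal.splits inferInstance x
      rw [← hspL.image_rootSet e0] at h3
      obtain ⟨y, hy, rfl⟩ := h3
      have hy' := (mem_rootSet.1 hy).2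
      have h4 : minpoly ℚ y = minpoly ℚ x :=
        (minpoly.eq_of_irreducible_of_monic (minpoly.irreducible hx) hy' hmonic).symm
      obtain ⟨g, hg⟩ := (Normal.minpoly_eq_iff_mem_orbit L).mp h4.symm
      have hg' : g y = x := hg
      have h5 := h l (e0.comp (g.symm : L →ₐ[ℚ] L))
      have h6 : (e0.comp (g.symm : L →ₐ[ℚ] L)) x = e0 y := by
        change e0 (g.symm x) = e0 y
        rw [← hg', AlgEquiv.symm_apply_apply]
      rwa [h6] at h5
    have h3 := coeff_prod_norm_le _ h2 k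
    rw [← h1, coeff_map] at h3
    have h4 : algebraMap ℚ (PadicAlgCl l) (f.coeff k) =
        algebraMap ℚ_[l] (PadicAlgCl l) ((f.coeff k : ℚ) : ℚ_[l]) := by
      simp
    rw [h4, PadicAlgCl.norm_extends] at h3
    exact h3
  have hlift : f ∈ Polynomial.lifts (Int.castRingHom ℚ) := by
    rw [Polynomial.lifts_iff_coeff_lifts]
    intro k
    refine ⟨(f.coeff k).num, ?_⟩
    rw [eq_intCast]
    have := Rat.mul_den_eq_num (f.coeff k)
    rw [hcoef k, Nat.cast_one, mul_one] at this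
    exact this.symm
  obtain ⟨g, hg1, hg2, hg3⟩ := Polynomial.lifts_and_natDegree_eq_and_monic hlift hmonic
  refine ⟨g, hg3, ?_⟩
  have h1 : aeval x f = 0 := minpoly.aeval ℚ x
  rw [← hg1, aeval_def, eval₂_map] at h1
  have h2 : algebraMap ℤ L = (algebraMap ℚ L).comp (Int.castRingHom ℚ) := RingHom.ext_int _ _
  rw [h2]
  exact h1

theorem exists_torsion (L : Type*) [Field L] [Algebra ℚ L] [FiniteDimensional ℚ L] :
    ∃ T : ℕ, 0 < T ∧ ∀ x : L, (∃ n : ℕ, 0 < n ∧ x ^ n = 1) → x ^ T = 1 := by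
  have hc : CharZero L := algebraRat.charZero L
  have h0 : ‹Algebra ℚ L› = DivisionRing.toRatAlgebra := Subsingleton.elim _ _
  subst h0
  have : NumberField L := ⟨⟩
  refine ⟨NumberField.Units.torsionOrder L, NumberField.Units.torsionOrder_pos L, ?_⟩
  rintro x ⟨n, hn, hx⟩
  have h1 : 0 < orderOf x := orderOf_pos_iff.2 (isOfFinOrder_iff_pow_eq_one.2 ⟨n, hn, hx⟩)
  have : NeZero (orderOf x) := ⟨h1.ne'⟩
  have h2 := NumberField.Units.dvd_torsionOrder_of_isPrimitiveRoot (IsPrimitiveRoot.orderOf x)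
  exact orderOf_dvd_iff_pow_eq_one.1 h2

theorem pow_eq_one_of_norm {L : Type*} [Field L] [Algebra ℚ L] [FiniteDimensional ℚ L] (x : L)
    (hx : IsIntegral ℤ x) (h : ∀ φ : L →ₐ[ℚ] ℂ, ‖φ x‖ = 1) : ∃ n : ℕ, 0 < n ∧ x ^ n = 1 := by
  have hc : CharZero L := algebraRat.charZero L
  have h0 : ‹Algebra ℚ L› = DivisionRing.toRatAlgebra := Subsingleton.elim _ _
  subst h0
  have : NumberField L := ⟨⟩
  obtain ⟨n, hn, hxn⟩ := NumberField.Embeddings.pow_eq_one_of_norm_eq_one L ℂ hx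
    fun φ => h φ.toRatAlgHom
  exact ⟨n, hn, hxn⟩

end Pool.Agent.H485R3
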