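import Mathlib

/-!
# Splitting of relations along subfields, with normal closures
-/

set_option autoImplicit false

namespace Pool.Agent.H485R3

open IntermediateField

/-- Functions `ψ j` on a Galois group, invariant under the subgroups fixing `E j`, with vanishing
sum: `ψ i` vanishes if it is odd under some `c` that fixes `E i ⊓ ⨆ j ≠ i, E j`. -/
theorem split_one {L : Type*} [Field L] [Algebra ℚ L] [FiniteDimensional ℚ L] [IsGalois ℚ L]
    {I : Type*} [Fintype I] [DecidableEq I] (E : I → IntermediateField ℚ L)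
    (ψ : I → (L ≃ₐ[ℚ] L) → ℝ)
    (h1 : ∀ i, ∀ g h : L ≃ₐ[ℚ] L, h ∈ (E i).fixingSubgroup → ψ i (g * h) = ψ i g)
    (c : L ≃ₐ[ℚ] L) (i : I) (h2 : ∀ g, ψ i (g * c) = - ψ i g)
    (h3 : ∀ g, ∑ i, ψ i g = 0)
    (h4 : ∀ z ∈ E i ⊓ ⨆ j ∈ {j | j ≠ i}, E j, c z = z) (g : L ≃ₐ[ℚ] L) :
    ψ i g = 0 := by
  classical
  set E' : IntermediateField ℚ L := ⨆ j ∈ {j | j ≠ i}, E j with hE'
  set J : Subgroup (L ≃ₐ[ℚ] L) := (E i).fixingSubgroup ⊔ E'.fixingSubgroup with hJ
  have hinv : ∀ h ∈ J, ∀ g, ψ i (g * h) = ψ i g := by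
    intro h hh
    rw [hJ, Subgroup.sup_eq_closure] at hh
    induction hh using Subgroup.closure_induction with
    | mem h hh =>
      intro g
      rcases hh with hh | hh
      · exact h1 i g h hh
      · have h5 : ∀ g, ψ i g = - ∑ j ∈ Finset.univ.erase i, ψ j g := by
          intro g
          have := h3 g
          rw [← Finset.add_sum_erase _ _ (Finset.mem_univ i)] at this
          linarith
        rw [h5, h5]
        congr 1
        refine Finset.sum_congr rfl fun j hj => ?_
        apply h1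
        have hle : E j ≤ E' := by
          rw [hE']
          exact le_iSup₂_of_le j (Finset.ne_of_mem_erase hj) le_rfl
        exact IntermediateField.fixingSubgroup_le hle hh
    | one => intro g; rw [mul_one]
    | mul a b _ _ ha hb => intro g; rw [← mul_assoc, hb, ha]
    | inv a _ ha => intro g; rw [← ha (g * a⁻¹), inv_mul_cancel_right]
  have hc : c ∈ J := by
    rw [← IntermediateField.fixingSubgroup_fixedField J, IntermediateField.mem_fixingSubgroup_iff]
    intro z hz
    apply h4
    rw [IntermediateField.mem_fixedField_iff] at hz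
    have hz1 : z ∈ E i := by
      rw [← IsGalois.fixedField_fixingSubgroup (E i), IntermediateField.mem_fixedField_iff]
      intro f hf
      exact hz f (Subgroup.mem_sup_left hf)
    have hz2 : z ∈ E' := by
      rw [← IsGalois.fixedField_fixingSubgroup E', IntermediateField.mem_fixedField_iff]
      intro f hf
      exact hz f (Subgroup.mem_sup_right hf)
    exact IntermediateField.mem_inf.2 ⟨hz1, hz2⟩
  have h6 := hinv c hc g
  rw [h2] at h6
  linarith

theorem fixingSubgroup_inf_le {L : Type*} [Field L] [Algebra ℚ L] [FiniteDimensional ℚ L]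
    [IsGalois ℚ L] (A B : IntermediateField ℚ L) :
    (A ⊓ B).fixingSubgroup ≤ A.fixingSubgroup ⊔ B.fixingSubgroup := by
  intro h hh
  rw [← IntermediateField.fixingSubgroup_fixedField (A.fixingSubgroup ⊔ B.fixingSubgroup),
    IntermediateField.mem_fixingSubgroup_iff]
  intro z hz
  rw [IntermediateField.mem_fixedField_iff] at hz
  refine (IntermediateField.mem_fixingSubgroup_iff _ _).1 hh z ?_
  rw [IntermediateField.mem_inf]
  constructor
  · rw [← IsGalois.fixedField_fixingSubgroup A, IntermediateField.mem_fixedField_iff]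
    intro f hf
    exact hz f (Subgroup.mem_sup_left hf)
  · rw [← IsGalois.fixedField_fixingSubgroup B, IntermediateField.mem_fixedField_iff]
    intro f hf
    exact hz f (Subgroup.mem_sup_right hf)

/-- Functions `ψ j` on a Galois group, invariant under the subgroups fixing `E j`, odd under `c`,
with vanishing sum: `ψ i` vanishes if `c` fixes `E i ⊓ ⨆ j ≠ i, (N ⊓ E j)`, where `N` is a normal
subfield that contains `E i`. -/
theorem split_normal {L : Type*} [Field L] [Algebra ℚ L] [FiniteDimensional ℚ L] [IsGalois ℚ L]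
    {I : Type*} [Fintype I] [DecidableEq I] (E : I → IntermediateField ℚ L)
    (ψ : I → (L ≃ₐ[ℚ] L) → ℝ)
    (h1 : ∀ i, ∀ g h : L ≃ₐ[ℚ] L, h ∈ (E i).fixingSubgroup → ψ i (g * h) = ψ i g)
    (c : L ≃ₐ[ℚ] L) (h2 : ∀ i g, ψ i (g * c) = - ψ i g)
    (h3 : ∀ g, ∑ i, ψ i g = 0) (i : I) (N : IntermediateField ℚ L)
    (hN : ∀ g : L ≃ₐ[ℚ] L, ∀ z ∈ N, g z ∈ N) (hEN : E i ≤ N)
    (h4 : ∀ z ∈ E i ⊓ ⨆ j ∈ {j | j ≠ i}, N ⊓ E j, c z = z) (g : L ≃ₐ[ℚ] L) :
    ψ i g = 0 := by
  classical
  have hnormal : ∀ g h : L ≃ₐ[ℚ] L, h ∈ N.fixingSubgroup → g * h * g⁻¹ ∈ N.fixingSubgroup := by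
    intro g h hh
    rw [IntermediateField.mem_fixingSubgroup_iff] at hh ⊢
    intro z hz
    rw [AlgEquiv.mul_apply, AlgEquiv.mul_apply, hh _ (hN g⁻¹ z hz), ← AlgEquiv.mul_apply,
      mul_inv_cancel, AlgEquiv.one_apply]
  set S : Finset (L ≃ₐ[ℚ] L) := Finset.univ.filter (fun h => h ∈ N.fixingSubgroup) with hS
  have hmemS : ∀ h, h ∈ S ↔ h ∈ N.fixingSubgroup := by
    intro h
    simp [hS]
  let φ : I → (L ≃ₐ[ℚ] L) → ℝ := fun j g => ∑ h ∈ S, ψ j (g * h)
  have hconj : ∀ j g k, ∑ h ∈ S, ψ j (g * k * h) = ∑ h ∈ S, ψ j (g * h * k) := by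
    intro j g k
    refine Finset.sum_bij' (fun h _ => k * h * k⁻¹) (fun h _ => k⁻¹ * h * k) ?_ ?_ ?_ ?_ ?_
    · intro h hh
      exact (hmemS _).2 (hnormal k h ((hmemS _).1 hh))
    · intro h hh
      have := hnormal k⁻¹ h ((hmemS _).1 hh)
      rw [inv_inv] at this
      exact (hmemS _).2 this
    · intro h _
      group
    · intro h _
      group
    · intro h _
      congr 1
      group
  have key := split_one (fun j => N ⊓ E j) φ (by
    intro j g h hh
    have hh' := fixingSubgroup_inf_le N (E j) hh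
    clear hh
    rw [Subgroup.sup_eq_closure] at hh'
    revert g
    induction hh' using Subgroup.closure_induction with
    | mem h hh =>
      intro g
      rcases hh with hh | hh
      · change ∑ k ∈ S, ψ j (g * h * k) = ∑ k ∈ S, ψ j (g * k)
        refine Finset.sum_bij' (fun k _ => h * k) (fun k _ => h⁻¹ * k) ?_ ?_ ?_ ?_ ?_
        · intro k hk
          exact (hmemS _).2 (mul_mem hh ((hmemS _).1 hk))
        · intro k hk
          exact (hmemS _).2 (mul_mem (inv_mem hh) ((hmemS _).1 hk))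
        · intro k _
          group
        · intro k _
          group
        · intro k _
          rw [mul_assoc]
      · change ∑ k ∈ S, ψ j (g * h * k) = ∑ k ∈ S, ψ j (g * k)
        rw [hconj]
        refine Finset.sum_congr rfl fun k _ => ?_
        exact h1 j (g * k) h hh
    | one => intro g; rw [mul_one]
    | mul a b _ _ ha hb => intro g; rw [← mul_assoc, hb, ha]
    | inv a _ ha => intro g; rw [← ha (g * a⁻¹), inv_mul_cancel_right]) c i (by
    intro g
    change ∑ k ∈ S, ψ i (g * c * k) = - ∑ k ∈ S, ψ i (g * k)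
    rw [hconj, ← Finset.sum_neg_distrib]
    exact Finset.sum_congr rfl fun k _ => h2 i (g * k)) (by
    intro g
    change ∑ j, ∑ k ∈ S, ψ j (g * k) = 0
    rw [Finset.sum_comm]
    exact Finset.sum_eq_zero fun k _ => h3 (g * k)) (by
    intro z hz
    apply h4
    rw [IntermediateField.mem_inf] at hz ⊢
    exact ⟨(IntermediateField.mem_inf.1 hz.1).2, hz.2⟩) g
  change ∑ k ∈ S, ψ i (g * k) = 0 at key
  have h5 : ∀ k ∈ S, ψ i (g * k) = ψ i g := by
    intro k hk
    exact h1 i g k (IntermediateField.fixingSubgroup_le hEN ((hmemS _).1 hk))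
  rw [Finset.sum_congr rfl h5, Finset.sum_const, nsmul_eq_mul] at key
  refine (mul_eq_zero.1 key).resolve_left ?_
  have : S.Nonempty := ⟨1, (hmemS _).2 (one_mem _)⟩
  exact_mod_cast this.card_pos.ne'

end Pool.Agent.H485R3
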