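import Mathlib
import Pool.Agent.H485R3.Kron
import Pool.Agent.H485R3.Fields
import Pool.Agent.H485R3.SplitNormal

/-!
# Splitting of multiplicative relations between Weil numbers in groups
-/

set_option autoImplicit false

namespace Pool.Agent.H485R3

open Polynomial Pool.Agent.H925R2

/-- **Splitting of relations, grouped form.** -/
theorem split_dev_group {L : Type*} [Field L] [Algebra ℚ L] [FiniteDimensional ℚ L] [IsGalois ℚ L]
    (p : ℕ) [Fact p.Prime] {I J : Type*} [Fintype I] [DecidableEq I] (γ : J → I)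
    (f : J → ℚ[X]) (q : J → ℚ) (hq : ∀ j, 0 < q j)
    (hweil : ∀ j, ∀ z : ℂ, aeval z (f j) = 0 → ‖z‖ ^ 2 = (q j : ℝ))
    (τ : L →ₐ[ℚ] ℂ) (c : L ≃ₐ[ℚ] L) (hc : ∀ z, starRingEnd ℂ (τ z) = τ (c z))
    (e : L →ₐ[ℚ] PadicAlgCl p) (E : I → IntermediateField ℚ L)
    (hE : ∀ i, E i = IntermediateField.adjoin ℚ
      {x : L | ∃ j, γ j = i ∧ aeval x (f j) = 0 ∧ dev p (q j) (e x) ≠ 0})
    (N : I → IntermediateField ℚ L) (hN : ∀ i, ∀ g : L ≃ₐ[ℚ] L, ∀ z ∈ N i, g z ∈ N i)
    (hEN : ∀ i, E i ≤ N i)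
    (hreal : ∀ i, ∀ z ∈ E i ⊓ ⨆ j ∈ {j | j ≠ i}, N i ⊓ E j, c z = z)
    {n : ℕ} (t : Fin n → J) (W : Fin n → L) (hW : ∀ k, aeval (W k) (f (t k)) = 0)
    (s : ℕ) (hs : 0 < s) (hrel : (∏ k, W k) ^ (2 * s) = (∏ k, (q (t k) : L)) ^ s)
    (i : I) (g : L ≃ₐ[ℚ] L) :
    ∑ k with γ (t k) = i, dev p (q (t k)) (e (g (W k))) = 0 := by
  classical
  let ψ : I → (L ≃ₐ[ℚ] L) → ℝ := fun i g =>
    ∑ k with γ (t k) = i, dev p (q (t k)) (e (g⁻¹ (W k)))
  have hroot : ∀ (g : L ≃ₐ[ℚ] L) (i : J) (z : L), aeval z (f i) = 0 → aeval (g z) (f i) = 0 := by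
    intro g i z hz
    have : aeval ((g : L →ₐ[ℚ] L) z) (f i) = 0 := by rw [aeval_algHom_apply, hz, map_zero]
    exact this
  have hmem : ∀ j : J, ∀ x : L, aeval x (f j) = 0 → dev p (q j) (e x) ≠ 0 → x ∈ E (γ j) := by
    intro j x h1 h2
    rw [hE]
    exact IntermediateField.subset_adjoin _ _ ⟨j, rfl, h1, h2⟩
  have key := split_normal E ψ (by
    intro i g h hh
    refine Finset.sum_congr rfl fun k hk => ?_
    rw [Finset.mem_filter] at hk
    have hWk : aeval (g⁻¹ (W k)) (f (t k)) = 0 := hroot _ _ _ (hW k)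
    rw [mul_inv_rev, AlgEquiv.mul_apply]
    set y := g⁻¹ (W k) with hy
    have hfix : ∀ z ∈ E i, h z = z := fun z hz =>
      (IntermediateField.mem_fixingSubgroup_iff _ _).1 hh z hz
    by_cases h0 : dev p (q (t k)) (e y) = 0
    · by_cases h1 : dev p (q (t k)) (e (h⁻¹ y)) = 0
      · rw [h0, h1]
      · exfalso
        have h2 : h⁻¹ y ∈ E i := by
          rw [← hk.2]
          exact hmem _ _ (hroot _ _ _ hWk) h1
        have h3 := hfix _ h2
        rw [← AlgEquiv.mul_apply, mul_inv_cancel, AlgEquiv.one_apply] at h3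
        rw [← h3] at h1
        exact h1 h0
    · have h2 : y ∈ E i := by
        rw [← hk.2]
        exact hmem _ _ hWk h0
      have h3 : h⁻¹ y = y := by
        have h4 := hfix _ h2
        conv_lhs => rw [← h4]
        rw [← AlgEquiv.mul_apply, inv_mul_cancel, AlgEquiv.one_apply]
      rw [h3]) c (by
    intro i g
    change ∑ k with γ (t k) = i, dev p (q (t k)) (e ((g * c)⁻¹ (W k))) =
      - ∑ k with γ (t k) = i, dev p (q (t k)) (e (g⁻¹ (W k)))
    rw [← Finset.sum_neg_distrib]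
    refine Finset.sum_congr rfl fun k hk => ?_
    have hWk : aeval (g⁻¹ (W k)) (f (t k)) = 0 := hroot _ _ _ (hW k)
    rw [mul_inv_rev, AlgEquiv.mul_apply]
    set y := g⁻¹ (W k) with hy
    have h1 : c⁻¹ y = (q (t k) : L) / y := by
      have h2 : c ((q (t k) : L) / y) = y := by
        rw [map_div₀, map_ratCast, conj_root τ c hc (hq (t k)) (hweil (t k)) hWk]
        have h3 := root_ne τ (hq (t k)) (hweil (t k)) hWk
        have h4 : (q (t k) : L) ≠ 0 := by
          intro h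
          have h5 : algebraMap ℚ L (q (t k)) = 0 := by rw [← h]; simp
          exact (hq (t k)).ne' ((map_eq_zero _).1 h5)
        field_simp
      conv_lhs => rw [← h2]
      rw [← AlgEquiv.mul_apply, inv_mul_cancel, AlgEquiv.one_apply]
    rw [h1, map_div₀, map_ratCast]
    exact dev_inv p (hq (t k)).ne' _ ((map_ne_zero e).2 (root_ne τ (hq (t k)) (hweil (t k)) hWk))) (by
    intro g
    have h1 := sum_dev p t q hq (fun k => g⁻¹ (W k)) (fun k =>
      (map_ne_zero g⁻¹).2 (root_ne τ (hq (t k)) (hweil (t k)) (hW k))) s hs (by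
      have h2 := congrArg (fun z => g⁻¹ z) hrel
      simp only [map_pow, map_prod, map_ratCast] at h2
      exact h2) e
    rw [← Finset.sum_fiberwise Finset.univ (fun k => γ (t k))] at h1
    exact h1) i (N i) (hN i) (hEN i) (hreal i) g⁻¹
  change ∑ k with γ (t k) = i, dev p (q (t k)) (e (g⁻¹⁻¹ (W k))) = 0 at key
  rw [inv_inv] at key
  exact key

theorem norm_le_one_of_isIntegral (l : ℕ) [Fact l.Prime] (y : PadicAlgCl l)
    (hy : IsIntegral ℤ y) : ‖y‖ ≤ 1 := by
  by_contra hlt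
  rw [not_le] at hlt
  obtain ⟨g, hg, h0⟩ := hy
  have h1 : y ^ g.natDegree = - ∑ i ∈ Finset.range g.natDegree, (g.coeff i : PadicAlgCl l) * y ^ i := by
    rw [eval₂_eq_sum_range, Finset.sum_range_succ, hg.coeff_natDegree] at h0
    simp only [eq_intCast, Int.cast_one, one_mul] at h0
    rw [eq_neg_iff_add_eq_zero, add_comm]
    exact h0
  have hint : ∀ i : ℕ, ‖(g.coeff i : PadicAlgCl l)‖ ≤ 1 := by
    intro i
    have h4 : ((g.coeff i : ℤ) : PadicAlgCl l) =
        algebraMap ℚ_[l] (PadicAlgCl l) ((g.coeff i : ℤ) : ℚ_[l]) := by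
      simp
    rw [h4, PadicAlgCl.norm_extends]
    exact Padic.norm_int_le_one _
  have h2 : ‖y ^ g.natDegree‖ < ‖y ^ g.natDegree‖ := by
    conv_lhs => rw [h1, norm_neg]
    have hpos : (0 : ℝ) < ‖y ^ g.natDegree‖ := by
      rw [norm_pow]
      exact pow_pos (zero_lt_one.trans hlt) _
    rcases Finset.eq_empty_or_nonempty (Finset.range g.natDegree) with hem | hne
    · rw [hem, Finset.sum_empty, norm_zero]
      exact hpos
    · obtain ⟨i, hi, hmax⟩ := IsUltrametricDist.exists_norm_finsetSum_le_of_nonempty hne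
        (fun i => (g.coeff i : PadicAlgCl l) * y ^ i)
      refine hmax.trans_lt ?_
      rw [norm_mul, norm_pow, norm_pow]
      rw [Finset.mem_range] at hi
      calc ‖(g.coeff i : PadicAlgCl l)‖ * ‖y‖ ^ i ≤ 1 * ‖y‖ ^ i :=
            mul_le_mul_of_nonneg_right (hint i) (pow_nonneg (norm_nonneg _) _)
        _ = ‖y‖ ^ i := one_mul _
        _ < ‖y‖ ^ g.natDegree := pow_lt_pow_right₀ hlt hi
  exact lt_irrefl _ h2

end Pool.Agent.H485R3
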