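import Mathlib
import Pool.Agent.H925R2.Multi

/-!
# Perfect matchings and invariant multilinear forms of mixed type
-/

set_option autoImplicit false

namespace Pool.Agent.H485R3

/-- A finite family of elements of a set with an involution `σ`, none of them fixed, in which `y`
and `σ y` occur equally often, admits a perfect matching of the indices. -/
theorem exists_matching' {n : ℕ} {S : Type*} [DecidableEq S] (σ : S → S) (hσσ : ∀ y, σ (σ y) = y)
    (μ : Fin n → S) (hne : ∀ k, σ (μ k) ≠ μ k)
    (hbal : ∀ y : S, Fintype.card {k // μ k = y} = Fintype.card {k // μ k = σ y}) :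
    ∃ τ : Equiv.Perm (Fin n), (∀ k, τ (τ k) = k) ∧ (∀ k, τ k ≠ k) ∧
      ∀ k, μ (τ k) = σ (μ k) := by
  classical
  have he : ∀ y : S, Nonempty ({k // μ k = y} ≃ {k // σ (μ k) = y}) := by
    intro y
    refine ⟨Fintype.equivOfCardEq ?_⟩
    rw [hbal y]
    refine Fintype.card_congr (Equiv.subtypeEquivRight fun k => ?_)
    constructor
    · intro h; rw [h, hσσ]
    · intro h; rw [← h, hσσ]
  let ρ : Equiv.Perm (Fin n) := Equiv.ofFiberEquiv (f := μ) (g := fun k => σ (μ k))
    (fun y => (he y).some)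
  have hρ : ∀ k, σ (μ (ρ k)) = μ k := fun k =>
    Equiv.ofFiberEquiv_map (f := μ) (g := fun k => σ (μ k)) (fun y => (he y).some) k
  have hρ1 : ∀ k, μ (ρ k) = σ (μ k) := fun k => by rw [← hρ k, hσσ]
  have hρ2 : ∀ k, μ (ρ.symm k) = σ (μ k) := fun k => by
    rw [← hρ (ρ.symm k), Equiv.apply_symm_apply]
  let P : S → Prop := fun y => WellOrderingRel y (σ y)
  have hP1 : ∀ k, P (μ k) → ¬ P (σ (μ k)) := by
    intro k h1 h2
    change WellOrderingRel _ _ at h1
    change WellOrderingRel _ _ at h2
    rw [hσσ] at h2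
    exact asymm_of WellOrderingRel h1 h2
  have hP2 : ∀ k, ¬ P (μ k) → P (σ (μ k)) := by
    intro k h1
    change ¬ WellOrderingRel _ _ at h1
    change WellOrderingRel _ _
    rw [hσσ]
    rcases trichotomous_of WellOrderingRel (μ k) (σ (μ k)) with h | h | h
    · exact absurd h h1
    · exact absurd h.symm (hne k)
    · exact h
  let t : Fin n → Fin n := fun k => if P (μ k) then ρ k else ρ.symm k
  have ht1 : ∀ k, P (μ k) → t k = ρ k := fun k h => if_pos h
  have ht2 : ∀ k, ¬ P (μ k) → t k = ρ.symm k := fun k h => if_neg h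
  have hμt : ∀ k, μ (t k) = σ (μ k) := by
    intro k
    by_cases h : P (μ k)
    · rw [ht1 k h, hρ1]
    · rw [ht2 k h, hρ2]
  have htt : ∀ k, t (t k) = k := by
    intro k
    by_cases h : P (μ k)
    · have h1 : ¬ P (μ (t k)) := by rw [hμt]; exact hP1 k h
      rw [ht2 _ h1, ht1 k h, Equiv.symm_apply_apply]
    · have h1 : P (μ (t k)) := by rw [hμt]; exact hP2 k h
      rw [ht1 _ h1, ht2 k h, Equiv.apply_symm_apply]
  refine ⟨⟨t, t, htt, htt⟩, htt, ?_, hμt⟩
  intro k h
  apply hne k
  rw [← hμt k]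
  exact congrArg μ h

section multi

variable {I : Type*} {Ω : Type*} [Field Ω] (V : I → Type*) [∀ i, AddCommGroup (V i)]
  [∀ i, Module Ω (V i)] (F : ∀ i, V i →ₗ[Ω] V i) (q : I → Ω)

/-- The multilinear form `ψ` in variables `v k ∈ V (t k)` is a product of pairings: there is a
perfect matching `τ` of the variables, matched variables being of the same type `t k`, and
`ψ v = ∏ B k (v k) (v (τ k))`, the product over the matched pairs, with bilinear forms `B k` that
satisfy `B k (F x, F y) = q B k (x, y)`. -/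
def IsProductOfPairings {n : ℕ} (t : Fin n → I)
    (ψ : MultilinearMap Ω (fun k => V (t k)) Ω) : Prop :=
  ∃ (τ : Equiv.Perm (Fin n)) (B : ∀ k, V (t k) →ₗ[Ω] V (t (τ k)) →ₗ[Ω] Ω),
    (∀ k, τ (τ k) = k) ∧ (∀ k, τ k ≠ k) ∧ (∀ k, t (τ k) = t k) ∧
    (∀ k x y, B k (F (t k) x) (F (t (τ k)) y) = q (t k) * B k x y) ∧
    ∀ v, ψ v = ∏ k with k < τ k, B k (v k) (v (τ k))

/-- If all multiplicative relations among the eigenvalues are balanced, all forms that are
multiplied by `c ^ s` under `F ^ s` are combinations of products of pairings. -/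
theorem multilinear_mixed [∀ i, FiniteDimensional Ω (V i)] (E : I → Set Ω)
    (hE : ∀ i, ∀ y ∈ E i, y ≠ 0 ∧ q i / y ≠ y) (hq : ∀ i, q i ≠ 0)
    (hF : ∀ i, Submodule.span Ω {v : V i | ∃ μ : Ω, μ ∈ E i ∧ F i v = μ • v} = ⊤)
    (hEinv : ∀ i, ∀ y ∈ E i, q i / y ∈ E i)
    {n : ℕ} (t : Fin n → I) (s : ℕ) (c : Ω)
    (hbal : ∀ y : Fin n → Ω, (∀ k, y k ∈ E (t k)) → (∏ k, y k) ^ s = c ^ s →
      ∀ i, ∀ z ∈ E i, Nat.card {k // t k = i ∧ y k = z} = Nat.card {k // t k = i ∧ y k = q i / z})
    (φ : MultilinearMap Ω (fun k => V (t k)) Ω)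
    (hφ : ∀ v : ∀ k, V (t k), φ (fun k => (F (t k) ^ s) (v k)) = c ^ s * φ v) :
    φ ∈ Submodule.span Ω {ψ | IsProductOfPairings V F q t ψ} := by
  classical
  choose d b μ hμE hμ using fun i => Pool.Agent.H925R2.exists_eigenbasis (F i) (E i) (hF i)
  let cp : (∀ k, Fin (d (t k))) → MultilinearMap Ω (fun k => V (t k)) Ω := fun J =>
    (MultilinearMap.mkPiAlgebra Ω (Fin n) Ω).compLinearMap (fun k => (b (t k)).coord (J k))
  have hcp : ∀ J v, cp J v = ∏ k, (b (t k)).coord (J k) (v k) := by
    intro J v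
    change (MultilinearMap.mkPiAlgebra Ω (Fin n) Ω) (fun k => (b (t k)).coord (J k) (v k)) = _
    rw [MultilinearMap.mkPiAlgebra_apply]
  have hexp : φ = ∑ J : (∀ k, Fin (d (t k))), φ (fun k => b (t k) (J k)) • cp J := by
    apply Module.Basis.ext_multilinear (fun k => b (t k))
    intro J
    rw [sum_apply, Finset.sum_eq_single J]
    · rw [smul_apply, hcp]
      have h1 : ∏ k, (b (t k)).coord (J k) (b (t k) (J k)) = 1 := by
        apply Finset.prod_eq_one
        intro k _
        simp
      rw [h1, smul_eq_mul, mul_one]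
    · intro J' _ hJ
      rw [smul_apply, hcp]
      obtain ⟨k, hk⟩ := Function.ne_iff.1 hJ
      have h1 : ∏ k, (b (t k)).coord (J' k) (b (t k) (J k)) = 0 := by
        apply Finset.prod_eq_zero (Finset.mem_univ k)
        rw [Module.Basis.coord_apply, Module.Basis.repr_self, Finsupp.single_apply,
          if_neg (fun h => hk h.symm)]
      rw [h1, smul_zero]
    · intro h
      exact absurd (Finset.mem_univ J) h
  rw [hexp]
  refine Submodule.sum_mem _ fun J _ => ?_
  by_cases h0 : φ (fun k => b (t k) (J k)) = 0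
  · rw [h0, zero_smul]
    exact Submodule.zero_mem _
  refine Submodule.smul_mem _ _ (Submodule.subset_span ?_)
  have hFs : ∀ i j, (F i ^ s) (b i j) = μ i j ^ s • b i j := by
    intro i j
    clear hφ hbal
    induction s with
    | zero => simp
    | succ m ih => rw [pow_succ', Module.End.mul_apply, ih, map_smul, hμ, smul_smul, pow_succ]
  have hprod : (∏ k, μ (t k) (J k)) ^ s = c ^ s := by
    have h1 := hφ (fun k => b (t k) (J k))
    have h2 : (fun k => (F (t k) ^ s) (b (t k) (J k))) =
        fun k => (μ (t k) (J k) ^ s) • b (t k) (J k) :=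
      funext fun k => hFs (t k) (J k)
    rw [h2, MultilinearMap.map_smul_univ, smul_eq_mul, Finset.prod_pow] at h1
    exact mul_right_cancel₀ h0 h1
  have hbal' := hbal (fun k => μ (t k) (J k)) (fun k => hμE _ _) hprod
  let σ : I × Ω → I × Ω := fun z => (z.1, q z.1 / z.2)
  have hσσ : ∀ z, σ (σ z) = z := by
    rintro ⟨i, z⟩
    simp only [σ]
    refine Prod.ext rfl ?_
    simp only
    by_cases hz : z = 0
    · rw [hz, div_zero, div_zero]
    · have := hq i
      field_simp
  obtain ⟨τ, hτ1, hτ2, hτ3⟩ := exists_matching' σ hσσ (fun k => (t k, μ (t k) (J k)))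
    (by
      intro k h
      exact (hE (t k) _ (hμE (t k) (J k))).2 (congrArg Prod.snd h))
    (by
      rintro ⟨i, z⟩
      have e1 : Fintype.card {k // (t k, μ (t k) (J k)) = (i, z)} =
          Nat.card {k // t k = i ∧ μ (t k) (J k) = z} := by
        rw [← Nat.card_eq_fintype_card]
        exact Nat.card_congr (Equiv.subtypeEquivRight fun k => Prod.mk_inj)
      have e2 : Fintype.card {k // (t k, μ (t k) (J k)) = σ (i, z)} =
          Nat.card {k // t k = i ∧ μ (t k) (J k) = q i / z} := by
        rw [← Nat.card_eq_fintype_card]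
        exact Nat.card_congr (Equiv.subtypeEquivRight fun k => Prod.mk_inj)
      rw [e1, e2]
      by_cases hz : z ∈ E i
      · exact hbal' i z hz
      · have i1 : IsEmpty {k // t k = i ∧ μ (t k) (J k) = z} :=
          ⟨fun ⟨k, h1, h2⟩ => hz (by subst h1; rw [← h2]; exact hμE _ _)⟩
        have i2 : IsEmpty {k // t k = i ∧ μ (t k) (J k) = q i / z} := by
          refine ⟨fun ⟨k, h5, h6⟩ => hz ?_⟩
          have h1 : q i / z ∈ E i := by subst h5; rw [← h6]; exact hμE _ _
          have h2 := hEinv i _ h1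
          have h3 := congrArg Prod.snd (hσσ (i, z))
          simp only [σ] at h3
          rwa [h3] at h2
        rw [Nat.card_eq_zero.2 (Or.inl i1), Nat.card_eq_zero.2 (Or.inl i2)])
  have hcoord : ∀ i j x, (b i).coord j (F i x) = μ i j * (b i).coord j x := by
    intro i j x
    have h1 : ((b i).coord j).comp (F i) = μ i j • (b i).coord j := by
      apply (b i).ext
      intro l
      rw [LinearMap.comp_apply, hμ, map_smul, LinearMap.smul_apply, Module.Basis.coord_apply,
        Module.Basis.repr_self, Finsupp.single_apply]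
      by_cases h : l = j
      · rw [h]
      · rw [if_neg h, smul_zero, smul_zero]
    exact congrArg (fun f : V i →ₗ[Ω] Ω => f x) h1
  refine ⟨τ, fun k => (LinearMap.mul Ω Ω).compl₁₂ ((b (t k)).coord (J k))
    ((b (t (τ k))).coord (J (τ k))), hτ1, hτ2, fun k => congrArg Prod.fst (hτ3 k), ?_, ?_⟩
  · intro k x y
    have h5 : μ (t (τ k)) (J (τ k)) = q (t k) / μ (t k) (J k) := congrArg Prod.snd (hτ3 k)
    simp only [LinearMap.compl₁₂_apply, LinearMap.mul_apply', hcoord, h5]
    have := (hE _ _ (hμE (t k) (J k))).1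
    field_simp
  · intro v
    rw [hcp]
    simp only [LinearMap.compl₁₂_apply, LinearMap.mul_apply']
    rw [Finset.prod_mul_distrib]
    have h1 : ∏ k with k < τ k, (b (t (τ k))).coord (J (τ k)) (v (τ k)) =
        ∏ k with ¬ k < τ k, (b (t k)).coord (J k) (v k) := by
      refine Finset.prod_bij' (fun k _ => τ k) (fun k _ => τ k) ?_ ?_ (fun k _ => hτ1 k)
        (fun k _ => hτ1 k) (fun k _ => rfl)
      · intro k hk
        simp only [Finset.mem_filter, Finset.mem_univ, true_and] at hk ⊢
        rw [hτ1]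
        exact hk.asymm
      · intro k hk
        simp only [Finset.mem_filter, Finset.mem_univ, true_and] at hk ⊢
        rw [hτ1]
        exact lt_of_le_of_ne (not_lt.1 hk) (hτ2 k)
    rw [h1, Finset.prod_filter_mul_prod_filter_not]

end multi

end Pool.Agent.H485R3
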