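import Mathlib
import Pool.Agent.H485R3.Match
import Pool.Agent.H485R3.Domin
import Pool.Agent.H485R3.Group
import Pool.Agent.H925R2.AV

/-!
# Products of powers, dominant slopes
-/

set_option autoImplicit false

namespace Pool.Agent.H485R3

open Polynomial Pool.Agent.H925R2

theorem dev_eq_val (p : ℕ) [Fact p.Prime] (q : ℚ) (α : PadicAlgCl p) :
    dev p q α = - Real.log p *
      (2 * (- Real.logb p ‖α‖) - (- Real.logb p ‖(q : PadicAlgCl p)‖)) := by
  have hp : Real.log p ≠ 0 :=
    (Real.log_pos (by exact_mod_cast (Fact.out : p.Prime).one_lt)).ne'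
  unfold dev Real.logb
  field_simp
  ring

theorem mixed_dominant (p : ℕ) [Fact p.Prime] {I : Type*} [Finite I] (f : I → ℚ[X])
    (hf : ∀ i, Irreducible (f i)) (q : I → ℚ) (hq : ∀ i, 0 < q i)
    (hweil : ∀ i, ∀ z : ℂ, aeval z (f i) = 0 → ‖z‖ ^ 2 = (q i : ℝ))
    (u : I → PadicAlgCl p → ℚ)
    (hu : ∀ i, ∀ α, aeval α (f i) = 0 → (u i α : ℝ) =
      2 * (- Real.logb p ‖α‖) - (- Real.logb p ‖(q i : PadicAlgCl p)‖))
    (r : I → ℕ) (hr : ∀ i, (r i).Prime) (β : I → PadicAlgCl p) (hβ : ∀ i, aeval (β i) (f i) = 0)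
    (huβ : ∀ i, u i (β i) ≠ 0)
    (hdom : ∀ i, ∀ α, aeval α (f i) = 0 → α ≠ β i → α ≠ (q i : PadicAlgCl p) / β i →
      padicNorm (r i) (u i α) < padicNorm (r i) (u i (β i)))
    (K M : I → IntermediateField ℚ (PadicAlgCl p))
    (hK : ∀ i, K i = IntermediateField.adjoin ℚ {α | aeval α (f i) = 0 ∧ u i α ≠ 0})
    (hKM : ∀ i, K i ≤ M i)
    (hM : ∀ i, ∀ x ∈ M i, ∀ y : PadicAlgCl p, aeval y (minpoly ℚ x) = 0 → y ∈ M i)
    (hreal : ∀ i, ∀ z ∈ K i ⊓ ⨆ j ∈ {j | j ≠ i}, M i ⊓ K j, ∀ w : ℂ,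
      aeval w (minpoly ℚ z) = 0 → w.im = 0)
    {Ω : Type*} [Field Ω] [IsAlgClosed Ω] [CharZero Ω]
    (V : I → Type*) [∀ i, AddCommGroup (V i)] [∀ i, Module Ω (V i)]
    [∀ i, FiniteDimensional Ω (V i)] (F : ∀ i, V i →ₗ[Ω] V i)
    (hF : ∀ i, Submodule.span Ω {v : V i | ∃ μ : Ω, aeval μ (f i) = 0 ∧ F i v = μ • v} = ⊤)
    {n : ℕ} (t : Fin n → I) (s : ℕ) (hs : 0 < s) (c : Ω) (hc : c ^ 2 = ∏ k, (q (t k) : Ω))
    (φ : MultilinearMap Ω (fun k => V (t k)) Ω)
    (hφ : ∀ v : ∀ k, V (t k), φ (fun k => (F (t k) ^ s) (v k)) = c ^ s * φ v) :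
    φ ∈ Submodule.span Ω {ψ | IsProductOfPairings V F (fun i => (q i : Ω)) t ψ} := by
  classical
  cases nonempty_fintype I
  obtain ⟨L, _, _, _, _, hsplit⟩ := exists_splitting f fun i => (hf i).ne_zero
  let e : L →ₐ[ℚ] PadicAlgCl p := IsAlgClosed.lift
  let τ : L →ₐ[ℚ] ℂ := IsAlgClosed.lift
  let j : L →ₐ[ℚ] Ω := IsAlgClosed.lift
  obtain ⟨cc, hcc⟩ := exists_conj τ
  have hlogp : (- Real.log p : ℝ) ≠ 0 :=
    neg_ne_zero.2 (Real.log_pos (by exact_mod_cast (Fact.out : p.Prime).one_lt)).ne'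
  have hdu : ∀ i, ∀ α : PadicAlgCl p, aeval α (f i) = 0 →
      dev p (q i) α = - Real.log p * (u i α : ℝ) := by
    intro i α hα
    rw [hu i α hα, dev_eq_val]
  have hroote : ∀ i, ∀ x : L, aeval x (f i) = 0 → aeval (e x) (f i) = 0 := by
    intro i x hx
    rw [aeval_algHom_apply, hx, map_zero]
  let S : I → Set (PadicAlgCl p) := fun i => {α | aeval α (f i) = 0 ∧ u i α ≠ 0}
  have hS : ∀ i, ∀ α ∈ S i, ∃ x : L, e x = α := by
    rintro i α ⟨hα, _⟩
    obtain ⟨x, _, hx⟩ := exists_root_lift (hf i).ne_zero (hsplit i) e α hα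
    exact ⟨x, hx⟩
  have hrealL := real_transfer p τ cc hcc e S hS K M hK hreal
  have hE : ∀ i, IntermediateField.adjoin ℚ (e ⁻¹' S i) = IntermediateField.adjoin ℚ
      {x : L | ∃ j, id j = i ∧ aeval x (f j) = 0 ∧ dev p (q j) (e x) ≠ 0} := by
    intro i
    congr 1
    ext x
    constructor
    · rintro ⟨h1, h2⟩
      have h3 := h1
      rw [aeval_algHom_apply] at h1
      refine ⟨i, rfl, (map_eq_zero e).1 h1, ?_⟩
      rw [hdu i _ h3]
      exact mul_ne_zero hlogp (by exact_mod_cast h2)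
    · rintro ⟨j, h0, h1, h2⟩
      obtain rfl : j = i := h0
      refine ⟨hroote j x h1, fun h3 => h2 ?_⟩
      rw [hdu j _ (hroote j x h1), h3]
      simp
  have hqL : ∀ i, (q i : L) ≠ 0 := by
    intro i h
    have h5 : algebraMap ℚ L (q i) = 0 := by rw [← h]; simp
    exact (hq i).ne' ((map_eq_zero _).1 h5)
  choose βL hβL1 hβL2 using fun i => exists_root_lift (hf i).ne_zero (hsplit i) e (β i) (hβ i)
  -- no fixed points
  have hnofix : ∀ i, ∀ x : L, aeval x (f i) = 0 → (q i : L) / x ≠ x := by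
    intro i x hx h
    obtain ⟨g, hg⟩ := exists_gal_root (hf i) hx (hβL1 i)
    have h1 : (q i : L) / βL i = βL i := by
      rw [← hg]
      have h2 := congrArg g h
      rwa [map_div₀, map_ratCast] at h2
    have h3 := dev_inv p (hq i).ne' (e (βL i)) ((map_ne_zero e).2 (root_ne τ (hq i) (hweil i) (hβL1 i)))
    rw [← map_ratCast e, ← map_div₀, h1] at h3
    have h4 : dev p (q i) (e (βL i)) = 0 := by linarith
    rw [hdu i _ (hroote i _ (hβL1 i)), hβL2] at h4
    have h5 := (mul_eq_zero.1 h4).resolve_left hlogp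
    exact huβ i (by exact_mod_cast h5)
  refine multilinear_mixed V F (fun i => (q i : Ω)) (fun i => {μ : Ω | aeval μ (f i) = 0})
    ?_ ?_ hF ?_ t s c ?_ φ hφ
  · intro i y hy
    obtain ⟨x, hx, rfl⟩ := exists_root_lift (hf i).ne_zero (hsplit i) j y hy
    refine ⟨(map_ne_zero j).2 (root_ne τ (hq i) (hweil i) hx), fun h => ?_⟩
    rw [← map_ratCast j, ← map_div₀] at h
    exact hnofix i x hx (j.injective h)
  · intro i
    exact Rat.cast_ne_zero.2 (hq i).ne'
  · intro i y hy
    obtain ⟨x, hx, rfl⟩ := exists_root_lift (hf i).ne_zero (hsplit i) j y hy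
    have h1 := root_div τ cc hcc (hq i) (hweil i) hx
    change aeval ((q i : Ω) / j x) (f i) = 0
    rw [← map_ratCast j, ← map_div₀, aeval_algHom_apply, h1, map_zero]
  · intro y hy hprod i z hz
    choose W hW1 hW2 using fun k =>
      exists_root_lift (hf (t k)).ne_zero (hsplit (t k)) j (y k) (hy k)
    obtain ⟨x, hx, rfl⟩ := exists_root_lift (hf i).ne_zero (hsplit i) j z hz
    have hrel : (∏ k, W k) ^ (2 * s) = (∏ k, (q (t k) : L)) ^ s := by
      apply j.injective
      change j ((∏ k, W k) ^ (2 * s)) = j ((∏ k, (q (t k) : L)) ^ s)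
      rw [map_pow, map_prod, map_pow, map_prod]
      simp only [hW2, map_ratCast]
      rw [mul_comm 2 s, pow_mul, hprod, ← hc, ← pow_mul, ← pow_mul, mul_comm]
    have hsum : ∀ g : L ≃ₐ[ℚ] L, ∑ k ∈ Finset.univ.filter (fun k => t k = i),
        dev p (q i) (e (g (W k))) = 0 := by
      intro g
      have h1 := split_dev_group p id f q hq hweil τ cc hcc e
        (fun i => IntermediateField.adjoin ℚ (e ⁻¹' S i)) hE (fun i => (M i).comap e)
        (fun i g z hz => stable_comap e (M i) (hM i) g z hz)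
        (fun i => adjoin_le_comap e (S i) (K i) (M i) (hK i) (hKM i)) hrealL t W hW1 s hs hrel i g
      rw [← h1]
      refine Finset.sum_congr rfl fun k hk => ?_
      rw [Finset.mem_filter] at hk
      rw [← hk.2]
      rfl
    have : Fact (r i).Prime := ⟨hr i⟩
    have key := balanced_of_dominant p (hf i) (hq i) (hweil i) τ cc hcc e (- Real.log p) hlogp
      (fun x => u i (e x)) (fun x hx => hdu i _ (hroote i x hx)) (r i) (βL i) (hβL1 i)
      (by rw [hβL2]; exact huβ i)
      (by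
        intro x hx h1 h2
        rw [hβL2]
        refine hdom i (e x) (hroote i x hx) ?_ ?_
        · intro h
          apply h1
          apply (e : L →+* PadicAlgCl p).injective
          exact h.trans (hβL2 i).symm
        · intro h
          apply h2
          apply (e : L →+* PadicAlgCl p).injective
          change e x = e _
          rw [h, map_div₀, map_ratCast, hβL2])
      (Finset.univ.filter (fun k => t k = i)) W
      (by
        intro k hk
        rw [Finset.mem_filter] at hk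
        rw [← hk.2]
        exact hW1 k) hsum x hx
    rw [Finset.filter_filter, Finset.filter_filter] at key
    have hcard : ∀ w : L, Nat.card {k // t k = i ∧ y k = j w} =
        (Finset.univ.filter (fun k => t k = i ∧ W k = w)).card := by
      intro w
      rw [Nat.card_eq_fintype_card, Fintype.card_subtype]
      congr 1
      ext k
      simp only [Finset.mem_filter, Finset.mem_univ, true_and]
      rw [← hW2 k]
      constructor
      · rintro ⟨h1, h2⟩
        exact ⟨h1, j.injective h2⟩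
      · rintro ⟨h1, h2⟩
        exact ⟨h1, congrArg j h2⟩
    change Nat.card {k // t k = i ∧ y k = j x} = Nat.card {k // t k = i ∧ y k = (q i : Ω) / j x}
    have h7 : (q i : Ω) / j x = j ((q i : L) / x) := by
      rw [map_div₀, map_ratCast]
    rw [h7, hcard, hcard]
    exact key

end Pool.Agent.H485R3
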