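import Mathlib
import Pool.Agent.H485R3.Group

/-!
# Multiplicative relations between Weil numbers split up to roots of unity
-/

set_option autoImplicit false

namespace Pool.Agent.H485R3

open Polynomial Pool.Agent.H925R2

theorem norm_prime_pow_ne (l p : ℕ) [Fact l.Prime] (hp : p.Prime) (hne : l ≠ p) (M : ℕ) :
    ‖((p : PadicAlgCl l) ^ M)‖ = 1 := by
  have h1 : (p : PadicAlgCl l) ^ M = algebraMap ℚ_[l] (PadicAlgCl l) ((p : ℚ_[l]) ^ M) := by
    simp
  rw [h1, PadicAlgCl.norm_extends, norm_pow]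
  have h2 : ‖(p : ℚ_[l])‖ = 1 := by
    apply Padic.norm_natCast_eq_one_iff.2
    exact (Nat.coprime_primes Fact.out hp).2 hne
  rw [h2, one_pow]

theorem relation_splits {L : Type*} [Field L] [Algebra ℚ L] [FiniteDimensional ℚ L]
    [IsGalois ℚ L] (p : ℕ) [Fact p.Prime] {I J : Type*} [Fintype I] [DecidableEq I] (γ : J → I)
    (f : J → ℚ[X]) (m : J → ℕ)
    (hweil : ∀ j, ∀ z : ℂ, aeval z (f j) = 0 → ‖z‖ ^ 2 = (((p : ℚ) ^ m j : ℚ) : ℝ))
    (hint : ∀ j, ∀ z : ℂ, aeval z (f j) = 0 → IsIntegral ℤ z)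
    (τ : L →ₐ[ℚ] ℂ) (c : L ≃ₐ[ℚ] L) (hc : ∀ z, starRingEnd ℂ (τ z) = τ (c z))
    (e : L →ₐ[ℚ] PadicAlgCl p) (E : I → IntermediateField ℚ L)
    (hE : ∀ i, E i = IntermediateField.adjoin ℚ
      {x : L | ∃ j, γ j = i ∧ aeval x (f j) = 0 ∧ dev p ((p : ℚ) ^ m j) (e x) ≠ 0})
    (N : I → IntermediateField ℚ L) (hN : ∀ i, ∀ g : L ≃ₐ[ℚ] L, ∀ z ∈ N i, g z ∈ N i)
    (hEN : ∀ i, E i ≤ N i)
    (hreal : ∀ i, ∀ z ∈ E i ⊓ ⨆ j ∈ {j | j ≠ i}, N i ⊓ E j, c z = z)
    (T : ℕ) (hT : ∀ x : L, (∃ n : ℕ, 0 < n ∧ x ^ n = 1) → x ^ T = 1)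
    {n : ℕ} (t : Fin n → J) (W : Fin n → L) (hW : ∀ k, aeval (W k) (f (t k)) = 0)
    (s : ℕ) (hs : 0 < s) (hrel : (∏ k, W k) ^ (2 * s) = (∏ k, (p : L) ^ m (t k)) ^ s)
    (i : I) :
    (∏ k with γ (t k) = i, W k) ^ (2 * T) = (∏ k with γ (t k) = i, (p : L) ^ m (t k)) ^ T := by
  classical
  have hp : p.Prime := Fact.out
  have hq : ∀ j, (0 : ℚ) < (p : ℚ) ^ m j := fun j => pow_pos (by exact_mod_cast hp.pos) _
  have hp0 : (p : L) ≠ 0 := by
    intro h
    have h5 : algebraMap ℚ L p = 0 := by rw [← h]; simp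
    exact hp.ne_zero (by exact_mod_cast (map_eq_zero _).1 h5)
  have hrel' : (∏ k, W k) ^ (2 * s) = (∏ k, (((p : ℚ) ^ m (t k) : ℚ) : L)) ^ s := by
    rw [hrel]
    push_cast
    rfl
  have hdev := split_dev_group p γ f (fun j => (p : ℚ) ^ m j) hq hweil τ c hc e E hE N hN hEN
    hreal t W hW
    s hs hrel' i
  set S : Finset (Fin n) := Finset.univ.filter (fun k => γ (t k) = i) with hS
  set A : L := ∏ k ∈ S, W k with hA
  set B : L := ∏ k ∈ S, (p : L) ^ m (t k) with hB
  have hB' : B = (p : L) ^ (∑ k ∈ S, m (t k)) := by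
    rw [hB, Finset.prod_pow_eq_pow_sum]
  have hB0 : B ≠ 0 := by
    rw [hB']
    exact pow_ne_zero _ hp0
  have hW0 : ∀ k, W k ≠ 0 := fun k => root_ne τ (hq (t k)) (hweil (t k)) (hW k)
  have hWint : ∀ k, IsIntegral ℤ (W k) := by
    intro k
    have h1 : aeval (τ (W k)) (f (t k)) = 0 := by rw [aeval_algHom_apply, hW k, map_zero]
    have h2 := hint _ _ h1
    exact (isIntegral_algHom_iff (τ.restrictScalars ℤ) τ.injective).1 h2
  have hAint : IsIntegral ℤ A := IsIntegral.prod _ fun k _ => hWint k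
  have hω : ∃ n : ℕ, 0 < n ∧ (A ^ 2 / B) ^ n = 1 := by
    apply pow_eq_one_of_norm
    · apply isIntegral_of_norm_le
      intro l hl e'
      by_cases hlp : l = p
      · subst hlp
        obtain ⟨g, hg⟩ := exists_gal e e'
        have h1 := hdev g
        rw [hg]
        refine le_of_eq ?_
        have hpos : 0 < ‖e (g (A ^ 2 / B))‖ := by
          rw [norm_pos_iff]
          refine (map_ne_zero e).2 ((map_ne_zero g).2 (div_ne_zero (pow_ne_zero _ ?_) hB0))
          exact Finset.prod_ne_zero_iff.2 fun k _ => hW0 k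
        apply Real.eq_one_of_pos_of_log_eq_zero hpos
        rw [← h1]
        simp only [dev, Finset.sum_sub_distrib, ← Finset.mul_sum]
        rw [map_div₀, map_div₀, map_pow, map_pow, norm_div, norm_pow, hA, hB, map_prod, map_prod,
          map_prod, map_prod, norm_prod, norm_prod, Real.log_div, Real.log_pow,
          Real.log_prod, Real.log_prod]
        · push_cast
          congr 1
          refine Finset.sum_congr rfl fun k _ => ?_
          rw [map_pow, map_pow, map_natCast, map_natCast]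
        · intro k _
          rw [map_pow, map_pow, map_natCast, map_natCast, norm_ne_zero_iff]
          exact pow_ne_zero _ (by exact_mod_cast hp.ne_zero)
        · intro k _
          exact norm_ne_zero_iff.2 ((map_ne_zero e).2 ((map_ne_zero g).2 (hW0 k)))
        · refine pow_ne_zero _ (Finset.prod_ne_zero_iff.2 fun k _ => ?_)
          exact norm_ne_zero_iff.2 ((map_ne_zero e).2 ((map_ne_zero g).2 (hW0 k)))
        · refine Finset.prod_ne_zero_iff.2 fun k _ => ?_
          rw [map_pow, map_pow, map_natCast, map_natCast, norm_ne_zero_iff]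
          exact pow_ne_zero _ (by exact_mod_cast hp.ne_zero)
      · rw [map_div₀, map_pow, norm_div, norm_pow, hB', map_pow, map_natCast,
          norm_prime_pow_ne l p hp hlp, div_one]
        have h1 : ‖e' A‖ ≤ 1 := norm_le_one_of_isIntegral l _
          ((isIntegral_algHom_iff (e'.restrictScalars ℤ) e'.injective).2 hAint)
        exact pow_le_one₀ (norm_nonneg _) h1
    · intro φ
      have h1 : ∀ k, ‖φ (W k)‖ ^ 2 = (p : ℝ) ^ m (t k) := by
        intro k
        rw [hweil (t k) (φ (W k)) (by rw [aeval_algHom_apply, hW k, map_zero])]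
        push_cast
        rfl
      rw [map_div₀, map_pow, norm_div, norm_pow, hA, hB, map_prod, map_prod, norm_prod, norm_prod,
        ← Finset.prod_pow]
      have h2 : ∏ k ∈ S, ‖φ ((p : L) ^ m (t k))‖ = ∏ k ∈ S, ‖φ (W k)‖ ^ 2 := by
        refine Finset.prod_congr rfl fun k _ => ?_
        rw [h1, map_pow, map_natCast, norm_pow, Complex.norm_natCast]
      rw [h2]
      apply div_self
      refine Finset.prod_ne_zero_iff.2 fun k _ => pow_ne_zero _ ?_
      exact norm_ne_zero_iff.2 ((map_ne_zero φ).2 (hW0 k))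
  have h1 := hT _ hω
  rw [div_pow, div_eq_one_iff_eq (pow_ne_zero _ hB0), ← pow_mul] at h1
  exact h1

end Pool.Agent.H485R3
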