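import Mathlib
import Pool.Agent.H485R3.Group

/-!
# Weil numbers of K3 type in CM fields with a prime of degree one
-/

set_option autoImplicit false

namespace Pool.Agent.H485R3

open Polynomial Pool.Agent.H925R2 NumberField

section

variable {K : Type*} [Field K] [CharZero K] (p : ℕ) [Fact p.Prime]

theorem norm_int_le (x : K →+* PadicAlgCl p) (z : 𝓞 K) : ‖x (algebraMap (𝓞 K) K z)‖ ≤ 1 :=
  norm_le_one_of_isIntegral p _ ((z.isIntegral_coe).map (x : K →+* PadicAlgCl p).toIntAlgHom)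

/-- the prime ideal of `𝓞 K` defined by an embedding in the algebraic closure of `ℚ_p` -/
def primeOf (x : K →+* PadicAlgCl p) : Ideal (𝓞 K) where
  carrier := {z | ‖x (algebraMap (𝓞 K) K z)‖ < 1}
  add_mem' := by
    intro a b ha hb
    change ‖x (algebraMap (𝓞 K) K (a + b))‖ < 1
    rw [map_add, map_add]
    exact (IsUltrametricDist.norm_add_le_max _ _).trans_lt (max_lt ha hb)
  zero_mem' := by
    change ‖x (algebraMap (𝓞 K) K 0)‖ < 1
    rw [map_zero, map_zero, norm_zero]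
    exact zero_lt_one
  smul_mem' := by
    intro a b hb
    change ‖x (algebraMap (𝓞 K) K (a * b))‖ < 1
    have hb' : ‖x (algebraMap (𝓞 K) K b)‖ < 1 := hb
    rw [map_mul, map_mul, norm_mul]
    calc ‖x (algebraMap (𝓞 K) K a)‖ * ‖x (algebraMap (𝓞 K) K b)‖
        ≤ 1 * ‖x (algebraMap (𝓞 K) K b)‖ :=
          mul_le_mul_of_nonneg_right (norm_int_le p x a) (norm_nonneg _)
      _ < 1 := by rw [one_mul]; exact hb'

theorem mem_primeOf (x : K →+* PadicAlgCl p) (z : 𝓞 K) :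
    z ∈ primeOf p x ↔ ‖x (algebraMap (𝓞 K) K z)‖ < 1 := Iff.rfl

theorem primeOf_isPrime (x : K →+* PadicAlgCl p) : (primeOf p x).IsPrime := by
  refine ⟨?_, ?_⟩
  · rw [Ideal.ne_top_iff_one, mem_primeOf, map_one, map_one, norm_one]
    exact lt_irrefl _
  · intro a b hab
    rw [mem_primeOf, map_mul, map_mul, norm_mul] at hab
    rw [mem_primeOf, mem_primeOf]
    by_contra h
    push Not at h
    have h1 : (1 : ℝ) * 1 ≤ ‖x (algebraMap (𝓞 K) K a)‖ * ‖x (algebraMap (𝓞 K) K b)‖ :=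
      mul_le_mul h.1 h.2 zero_le_one (norm_nonneg _)
    rw [one_mul] at h1
    exact absurd hab (not_lt.2 h1)

theorem norm_p_lt : ‖(p : PadicAlgCl p)‖ < 1 := by
  have h1 : (p : PadicAlgCl p) = algebraMap ℚ_[p] (PadicAlgCl p) (p : ℚ_[p]) := by simp
  rw [h1, PadicAlgCl.norm_extends]
  exact Padic.norm_p_lt_one

theorem p_mem_primeOf (x : K →+* PadicAlgCl p) : (p : 𝓞 K) ∈ primeOf p x := by
  rw [mem_primeOf, map_natCast, map_natCast]
  exact norm_p_lt p

theorem primeOf_ne_bot (x : K →+* PadicAlgCl p) : primeOf p x ≠ ⊥ := by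
  intro h
  have h1 := p_mem_primeOf p x
  rw [h, Ideal.mem_bot] at h1
  have h2 : ((p : ℕ) : 𝓞 K) ≠ 0 := by exact_mod_cast (Fact.out : p.Prime).ne_zero
  exact h2 h1

end

theorem exists_principal_pow {R : Type*} [CommRing R] [IsDedekindDomain R]
    [Fintype (ClassGroup R)] (P : Ideal R) (hP : P ≠ ⊥) :
    ∃ (h : ℕ) (γ : R), 0 < h ∧ γ ≠ 0 ∧ P ^ h = Ideal.span {γ} := by
  have hmem : P ∈ nonZeroDivisors (Ideal R) := mem_nonZeroDivisors_of_ne_zero hP
  have h1 : ClassGroup.mk0 (⟨P, hmem⟩ ^ Fintype.card (ClassGroup R)) = 1 := by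
    rw [map_pow, pow_card_eq_one]
  have hpow : P ^ Fintype.card (ClassGroup R) ∈ nonZeroDivisors (Ideal R) := pow_mem hmem _
  have h2 : (P ^ Fintype.card (ClassGroup R)).IsPrincipal := by
    rw [← ClassGroup.mk0_eq_one_iff hpow, ← h1]
    rfl
  obtain ⟨γ, hγ⟩ := h2.principal
  have hγ' : P ^ Fintype.card (ClassGroup R) = Ideal.span {γ} := hγ
  refine ⟨Fintype.card (ClassGroup R), γ, Fintype.card_pos, ?_, hγ'⟩
  rintro rfl
  rw [Ideal.span_singleton_eq_bot.2 rfl] at hγ'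
  exact hP (eq_zero_of_pow_eq_zero hγ')

theorem pow_decomp' {R : Type*} [CommRing R] [IsDedekindDomain R]
    (P : Ideal R) (hP : P ≠ ⊥) (hPp : P.IsPrime) (h : ℕ) (γ : R) (hγ0 : γ ≠ 0)
    (hγ : P ^ h = Ideal.span {γ}) (w : R) (hw : w ≠ 0) :
    ∃ (m : ℕ) (b : R), w ^ h = γ ^ m * b ∧ b ∉ P := by
  have hprime : Prime P := Ideal.prime_of_isPrime hP hPp
  have hw' : Ideal.span {w} ≠ (0 : Ideal R) := by
    rw [Ne, Ideal.zero_eq_bot, Ideal.span_singleton_eq_bot]
    exact hw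
  obtain ⟨m, a, ha, hwa⟩ := WfDvdMonoid.max_power_factor hw' hprime.irreducible
  have h1 : Ideal.span {w ^ h} = Ideal.span {γ ^ m} * a ^ h := by
    rw [← Ideal.span_singleton_pow, hwa, mul_pow, ← pow_mul, mul_comm m h, pow_mul, hγ,
      Ideal.span_singleton_pow]
  have h2 : w ^ h ∈ Ideal.span {γ ^ m} :=
    Ideal.dvd_span_singleton.1 (Dvd.intro _ h1.symm)
  obtain ⟨b, hb⟩ := Ideal.mem_span_singleton'.1 h2
  refine ⟨m, b, by rw [← hb, mul_comm], ?_⟩
  intro hbmem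
  have h4 : Ideal.span {γ ^ m} * Ideal.span {b} = Ideal.span {γ ^ m} * a ^ h := by
    rw [← h1, ← hb, mul_comm b, Ideal.span_singleton_mul_span_singleton]
  have h5 : Ideal.span {γ ^ m} ≠ (0 : Ideal R) := by
    rw [Ne, Ideal.zero_eq_bot, Ideal.span_singleton_eq_bot]
    exact pow_ne_zero _ hγ0
  have h6 : Ideal.span {b} = a ^ h := mul_left_cancel₀ h5 h4
  have h7 : P ∣ a ^ h := by
    rw [← h6, Ideal.dvd_span_singleton]
    exact hbmem
  exact ha (hprime.dvd_of_dvd_pow h7)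

end Pool.Agent.H485R3
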