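import Mathlib
import Pool.Agent.H485R3.K3Type

/-!
# Existence of Weil numbers of K3 type in CM fields with a prime of degree one
-/

set_option autoImplicit false

namespace Pool.Agent.H485R3

open Polynomial Pool.Agent.H925R2 NumberField

/-- If `K` embeds in `ℚ_p` by `x₀`, a generator of a power of the prime ideal of `x₀` is a unit
for all other embeddings in the algebraic closure of `ℚ_p`. -/
theorem norm_gen_eq_one {K : Type*} [Field K] [NumberField K] (p : ℕ) [Fact p.Prime]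
    (x₀ : K →+* ℚ_[p]) (x₁ : K →+* PadicAlgCl p)
    (hx₁ : x₁ = (algebraMap ℚ_[p] (PadicAlgCl p)).comp x₀)
    (h : ℕ) (γ : 𝓞 K) (hh : 0 < h) (hγ0 : γ ≠ 0)
    (hγ : primeOf p x₁ ^ h = Ideal.span {γ}) (x : K →+* PadicAlgCl p) (hx : x ≠ x₁) :
    ‖x (algebraMap (𝓞 K) K γ)‖ = 1 := by
  by_contra hne
  have hlt : ‖x (algebraMap (𝓞 K) K γ)‖ < 1 := lt_of_le_of_ne (norm_int_le p x γ) hne
  have hP0 := primeOf_ne_bot p x₁
  have hPp := primeOf_isPrime p x₁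
  have hPx := primeOf_isPrime p x
  have hle : primeOf p x₁ ≤ primeOf p x := by
    apply Ideal.IsPrime.le_of_pow_le (n := h)
    rw [hγ, Ideal.span_singleton_le_iff_mem]
    exact hlt
  have heq : primeOf p x₁ = primeOf p x :=
    (hPp.isMaximal hP0).eq_of_le hPx.ne_top hle
  set ρ := ‖x (algebraMap (𝓞 K) K γ)‖ with hρ
  set ρ₀ := ‖x₁ (algebraMap (𝓞 K) K γ)‖ with hρ₀
  have hγK : (algebraMap (𝓞 K) K γ) ≠ 0 := by
    intro h1
    exact hγ0 ((FaithfulSMul.algebraMap_injective (𝓞 K) K) (h1.trans (map_zero _).symm))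
  have hρpos : 0 < ρ := norm_pos_iff.2 ((map_ne_zero x).2 hγK)
  have hρ₀pos : 0 < ρ₀ := norm_pos_iff.2 ((map_ne_zero x₁).2 hγK)
  have hρ₀le : ρ₀ ≤ 1 := norm_int_le p x₁ γ
  obtain ⟨z, hz⟩ : ∃ z : 𝓞 K, x (algebraMap (𝓞 K) K z) ≠ x₁ (algebraMap (𝓞 K) K z) := by
    by_contra hcon
    push Not at hcon
    apply hx
    refine RingHom.ext fun y => ?_
    obtain ⟨a, b, hb, rfl⟩ := IsFractionRing.div_surjective (A := 𝓞 K) y
    rw [map_div₀, map_div₀, hcon, hcon]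
  set δ := ‖x (algebraMap (𝓞 K) K z) - x₁ (algebraMap (𝓞 K) K z)‖ with hδ
  have hδpos : 0 < δ := norm_pos_iff.2 (sub_ne_zero.2 hz)
  obtain ⟨M, hM⟩ := exists_pow_lt_of_lt_one (pow_pos hδpos h) hlt
  -- choose a good integer
  have hzint : ‖x₀ (algebraMap (𝓞 K) K z)‖ ≤ 1 := by
    have h1 := norm_int_le p x₁ z
    rw [hx₁] at h1
    change ‖algebraMap ℚ_[p] (PadicAlgCl p) (x₀ (algebraMap (𝓞 K) K z))‖ ≤ 1 at h1
    rwa [PadicAlgCl.norm_extends] at h1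
  set ε := min δ (ρ₀ ^ M) with hε
  have hεpos : 0 < ε := lt_min hδpos (pow_pos hρ₀pos _)
  have hεle : ε ≤ 1 := (min_le_right _ _).trans (pow_le_one₀ hρ₀pos.le hρ₀le)
  obtain ⟨y, hy⟩ : ∃ y : ℤ_[p], (y : ℚ_[p]) = x₀ (algebraMap (𝓞 K) K z) :=
    ⟨⟨_, hzint⟩, rfl⟩
  obtain ⟨N, hN⟩ := PadicInt.denseRange_natCast.exists_dist_lt y hεpos
  have hN' : ‖x₁ (algebraMap (𝓞 K) K (z - (N : 𝓞 K)))‖ < ε := by
    rw [map_sub, map_sub, map_natCast, map_natCast, hx₁]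
    change ‖algebraMap ℚ_[p] (PadicAlgCl p) (x₀ (algebraMap (𝓞 K) K z)) - (N : PadicAlgCl p)‖ < ε
    rw [← map_natCast (algebraMap ℚ_[p] (PadicAlgCl p)) N, ← map_sub, PadicAlgCl.norm_extends]
    rw [dist_eq_norm, PadicInt.norm_def] at hN
    rw [← hy]
    push_cast at hN
    exact hN
  set w : 𝓞 K := z - (N : 𝓞 K) with hw
  have hxw : ‖x (algebraMap (𝓞 K) K w)‖ = δ := by
    have h1 : x (algebraMap (𝓞 K) K w) = (x (algebraMap (𝓞 K) K z) - x₁ (algebraMap (𝓞 K) K z)) +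
        x₁ (algebraMap (𝓞 K) K w) := by
      rw [hw, map_sub, map_sub, map_sub, map_natCast, map_natCast, map_natCast]
      ring
    rw [h1, IsUltrametricDist.norm_add_eq_max_of_norm_ne_norm]
    · exact max_eq_left (hN'.le.trans (min_le_left _ _))
    · exact (hN'.trans_le (min_le_left _ _)).ne'
  have hw0 : w ≠ 0 := by
    intro h1
    rw [h1, map_zero, map_zero, norm_zero] at hxw
    exact hδpos.ne hxw
  obtain ⟨m, b, hmb, hb⟩ := pow_decomp' (primeOf p x₁) hP0 hPp h γ hγ0 hγ w hw0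
  have hb1 : ‖x₁ (algebraMap (𝓞 K) K b)‖ = 1 :=
    le_antisymm (norm_int_le p x₁ b) (not_lt.1 hb)
  have hb2 : ‖x (algebraMap (𝓞 K) K b)‖ = 1 := by
    rw [heq] at hb
    exact le_antisymm (norm_int_le p x b) (not_lt.1 hb)
  have e1 : ‖x₁ (algebraMap (𝓞 K) K w)‖ ^ h = ρ₀ ^ m := by
    rw [← norm_pow, ← map_pow, ← map_pow, hmb, map_mul, map_mul, norm_mul, hb1, mul_one,
      map_pow, map_pow, norm_pow]
  have e2 : δ ^ h = ρ ^ m := by
    rw [← hxw, ← norm_pow, ← map_pow, ← map_pow, hmb, map_mul, map_mul, norm_mul, hb2, mul_one,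
      map_pow, map_pow, norm_pow]
  have hmM : m < M := by
    by_contra h1
    rw [not_lt] at h1
    have h2 : ρ ^ m ≤ ρ ^ M := pow_le_pow_of_le_one hρpos.le hlt.le h1
    rw [← e2] at h2
    exact absurd hM (not_lt.2 h2)
  have h3 : ρ₀ ^ M ≤ ρ₀ ^ m := pow_le_pow_of_le_one hρ₀pos.le hρ₀le hmM.le
  have h4 : ‖x₁ (algebraMap (𝓞 K) K w)‖ ^ h < ρ₀ ^ M := by
    have h5 : ‖x₁ (algebraMap (𝓞 K) K w)‖ ^ h ≤ ‖x₁ (algebraMap (𝓞 K) K w)‖ := by
      have := pow_le_pow_of_le_one (norm_nonneg (x₁ (algebraMap (𝓞 K) K w)))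
        (norm_int_le p x₁ w) (Nat.succ_le_of_lt hh)
      simpa using this
    exact h5.trans_lt (hN'.trans_le (min_le_right _ _))
  rw [e1] at h4
  exact absurd h4 (not_lt.2 h3)

end Pool.Agent.H485R3
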