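import Mathlib
import Pool.Agent.H485R3.K3Exists

/-!
# The Weil number of K3 type
-/

set_option autoImplicit false

namespace Pool.Agent.H485R3

open Pool.Agent.H925R2 NumberField NumberField.IsCMField

theorem exists_k3 (p : ℕ) [Fact p.Prime] {K : Type*} [Field K] [NumberField K] [IsCMField K]
    (x₀ : K →+* ℚ_[p]) (x₁ : K →+* PadicAlgCl p)
    (hx₁ : x₁ = (algebraMap ℚ_[p] (PadicAlgCl p)).comp x₀) :
    ∃ (ω : K) (b : ℕ), 0 < b ∧ IsIntegral ℤ ω ∧ (∀ φ : K →+* ℂ, ‖φ ω‖ ^ 2 = (p : ℝ) ^ b) ∧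
      (∀ x : K →+* PadicAlgCl p, x ≠ x₁ → x.comp (complexConj K : K →+* K) ≠ x₁ →
        dev p ((p : ℚ) ^ b) (x ω) = 0) ∧ dev p ((p : ℚ) ^ b) (x₁ ω) ≠ 0 := by
  obtain ⟨h, γ, hh, hγ0, hγ⟩ := exists_principal_pow (primeOf p x₁) (primeOf_ne_bot p x₁)
  have hgen := norm_gen_eq_one p x₀ x₁ hx₁ h γ hh hγ0 hγ
  have hp : p.Prime := Fact.out
  set g : K := algebraMap (𝓞 K) K γ with hg
  have hg0 : g ≠ 0 := by
    intro h1
    exact hγ0 ((FaithfulSMul.algebraMap_injective (𝓞 K) K) (h1.trans (map_zero _).symm))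
  have hcg0 : complexConj K g ≠ 0 := (map_ne_zero _).2 hg0
  have hp0 : (p : K) ≠ 0 := by exact_mod_cast hp.ne_zero
  have hdvd : ∃ d : 𝓞 K, (p : 𝓞 K) ^ h = γ * d := by
    have h1 : (p : 𝓞 K) ^ h ∈ primeOf p x₁ ^ h := Ideal.pow_mem_pow (p_mem_primeOf p x₁) h
    rw [hγ, Ideal.mem_span_singleton'] at h1
    obtain ⟨d, hd⟩ := h1
    exact ⟨d, by rw [← hd, mul_comm]⟩
  obtain ⟨d, hd⟩ := hdvd
  have hdK : (p : K) ^ h = g * algebraMap (𝓞 K) K d := by
    have h1 := congrArg (algebraMap (𝓞 K) K) hd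
    rwa [map_mul, map_pow, map_natCast] at h1
  have hcd : (p : K) ^ h = complexConj K g * complexConj K (algebraMap (𝓞 K) K d) := by
    have h1 := congrArg (complexConj K) hdK
    rwa [map_mul, map_pow, map_natCast] at h1
  set ω : K := g * complexConj K (algebraMap (𝓞 K) K d) with hω
  have hω' : ω * complexConj K g = g * (p : K) ^ h := by
    rw [hω, hcd]
    ring
  have hdev : ∀ x : K →+* PadicAlgCl p, dev p ((p : ℚ) ^ (2 * h)) (x ω) =
      2 * (Real.log ‖x g‖ - Real.log ‖x (complexConj K g)‖) := by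
    intro x
    have h1 : Real.log ‖x ω‖ = Real.log ‖x g‖ + h * Real.log ‖(p : PadicAlgCl p)‖ -
        Real.log ‖x (complexConj K g)‖ := by
      have h2 := congrArg (fun z => Real.log ‖x z‖) hω'
      simp only [map_mul, norm_mul, map_pow, map_natCast, norm_pow] at h2
      have hω0 : ω ≠ 0 := by
        intro h3
        rw [h3, zero_mul] at hω'
        exact mul_ne_zero hg0 (pow_ne_zero _ hp0) hω'.symm
      have hpp : (p : PadicAlgCl p) ≠ 0 := by exact_mod_cast hp.ne_zero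
      rw [Real.log_mul (norm_ne_zero_iff.2 ((map_ne_zero x).2 hω0))
        (norm_ne_zero_iff.2 ((map_ne_zero x).2 hcg0)),
        Real.log_mul (norm_ne_zero_iff.2 ((map_ne_zero x).2 hg0))
        (pow_ne_zero _ (norm_ne_zero_iff.2 hpp)), Real.log_pow] at h2
      linarith
    unfold dev
    rw [h1]
    push_cast
    rw [norm_pow, Real.log_pow]
    push_cast
    ring
  refine ⟨ω, 2 * h, by omega, ?_, ?_, ?_, ?_⟩
  · refine IsIntegral.mul γ.isIntegral_coe ?_
    exact (d.isIntegral_coe).map ((complexConj K : K →+* K).toIntAlgHom)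
  · intro φ
    have h1 := congrArg (fun z => ‖φ z‖) hω'
    simp only [map_mul, norm_mul, map_pow, map_natCast, norm_pow] at h1
    rw [complexEmbedding_complexConj, Complex.norm_natCast] at h1
    have h2 : ‖starRingEnd ℂ (φ g)‖ = ‖φ g‖ := Complex.norm_conj _
    rw [h2, mul_comm] at h1
    have h3 : ‖φ g‖ ≠ 0 := norm_ne_zero_iff.2 ((map_ne_zero φ).2 hg0)
    have h4 := mul_left_cancel₀ h3 h1
    rw [h4, ← pow_mul, mul_comm]
  · intro x hx hxc
    rw [hdev, hgen x hx]
    have h1 := hgen _ hxc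
    change ‖x (complexConj K g)‖ = 1 at h1
    rw [h1]
    simp
  · have hne : x₁.comp (complexConj K : K →+* K) ≠ x₁ := by
      intro h1
      apply complexConj_ne_one K
      ext z
      apply x₁.injective
      exact congrArg (fun f : K →+* PadicAlgCl p => f z) h1
    have h1 := hgen _ hne
    change ‖x₁ (complexConj K g)‖ = 1 at h1
    rw [hdev, h1, Real.log_one, sub_zero]
    have h2 : ‖x₁ g‖ < 1 := by
      have h3 : γ ^ 1 ∈ primeOf p x₁ := by
        rw [pow_one]
        have h4 : γ ∈ primeOf p x₁ ^ h := by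
          rw [hγ]
          exact Ideal.mem_span_singleton_self γ
        exact Ideal.pow_le_self hh.ne' h4
      rw [pow_one] at h3
      exact h3
    have h3 : 0 < ‖x₁ g‖ := norm_pos_iff.2 ((map_ne_zero x₁).2 hg0)
    have h4 := Real.log_neg h3 h2
    intro h5
    linarith

end Pool.Agent.H485R3
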