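import Mathlib
import Pool.Agent.H925R2.Ext
import Pool.Agent.H925R2.Bridge
import Pool.Agent.H485R3.Rel

/-!
# Weil numbers in a CM field: lines of Weil numbers in the direction of K3 type
-/

set_option autoImplicit false

namespace Pool.Agent.H485R3

open Polynomial Pool.Agent.H925R2

theorem dev_mul (p : ℕ) [Fact p.Prime] {q q' : ℚ} (hq : q ≠ 0) (hq' : q' ≠ 0)
    (α β : PadicAlgCl p) (hα : α ≠ 0) (hβ : β ≠ 0) :
    dev p (q * q') (α * β) = dev p q α + dev p q' β := by
  unfold dev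
  have h1 : (q : PadicAlgCl p) ≠ 0 := by exact_mod_cast hq
  have h2 : (q' : PadicAlgCl p) ≠ 0 := by exact_mod_cast hq'
  push_cast
  rw [norm_mul, norm_mul, Real.log_mul (norm_ne_zero_iff.2 hα) (norm_ne_zero_iff.2 hβ),
    Real.log_mul (norm_ne_zero_iff.2 h1) (norm_ne_zero_iff.2 h2)]
  ring

theorem dev_pow_pow (p : ℕ) [Fact p.Prime] (q : ℚ) (α : PadicAlgCl p) (k : ℕ) :
    dev p (q ^ k) (α ^ k) = k * dev p q α := by
  unfold dev
  push_cast
  rw [norm_pow, norm_pow, Real.log_pow, Real.log_pow]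
  ring

/-- an embedding of the algebraic numbers in the `p`-adic ones extending a given one on `K` -/
theorem exists_embedding {K : Type*} [Field K] [Algebra ℚ K] {A : Type*} [Field A] [Algebra ℚ A]
    [Algebra.IsAlgebraic ℚ A] (p : ℕ) [Fact p.Prime] (σ : K →ₐ[ℚ] A) (x : K →ₐ[ℚ] PadicAlgCl p) :
    ∃ e : A →ₐ[ℚ] PadicAlgCl p, ∀ z, e (σ z) = x z := by
  let _ : Algebra K A := σ.toRingHom.toAlgebra
  let _ : Algebra K (PadicAlgCl p) := x.toRingHom.toAlgebra
  have _ : IsScalarTower ℚ K A := IsScalarTower.of_algebraMap_eq fun z =>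
    (σ.commutes z).symm
  have _ : Algebra.IsAlgebraic K A := Algebra.IsAlgebraic.tower_top (K := ℚ) K
  let e : A →ₐ[K] PadicAlgCl p := IsAlgClosed.lift
  refine ⟨{ e.toRingHom with commutes' := fun r => ?_ }, fun z => ?_⟩
  · change e (algebraMap ℚ A r) = _
    rw [eq_ratCast, map_ratCast, eq_ratCast]
  · exact e.commutes z

section

variable {K : Type*} [Field K] [Algebra ℚ K] [FiniteDimensional ℚ K] {A : Type*} [Field A]
  [Algebra ℚ A] (c : K ≃ₐ[ℚ] K) (hc2 : ∀ z, c (c z) = z) (hc1 : ∃ z, c z ≠ z)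

/-- composition with the involution -/
def cj (σ : K →ₐ[ℚ] A) : K →ₐ[ℚ] A := σ.comp (c : K →ₐ[ℚ] K)

omit [FiniteDimensional ℚ K] in
include hc2 in
theorem cj_cj (σ : K →ₐ[ℚ] A) : cj c (cj c σ) = σ := by
  ext z
  change σ (c (c z)) = σ z
  rw [hc2]

omit [FiniteDimensional ℚ K] in
include hc1 in
theorem cj_ne (σ : K →ₐ[ℚ] A) : cj c σ ≠ σ := by
  intro h
  obtain ⟨z, hz⟩ := hc1
  apply hz
  have h1 : σ (c z) = σ z := congrArg (fun f : K →ₐ[ℚ] A => f z) h
  exact σ.toRingHom.injective h1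

open Classical in
/-- a half system of embeddings -/
noncomputable def half (A : Type*) [Field A] [Algebra ℚ A] : Finset (K →ₐ[ℚ] A) :=
  Finset.univ.filter (fun σ => WellOrderingRel σ (cj c σ))

theorem mem_half (σ : K →ₐ[ℚ] A) : σ ∈ half c A ↔ WellOrderingRel σ (cj c σ) := by
  classical
  simp [half]

include hc2 hc1 in
theorem not_mem_half (σ : K →ₐ[ℚ] A) : σ ∉ half c A ↔ cj c σ ∈ half c A := by
  rw [mem_half, mem_half, cj_cj c hc2]
  constructor
  · intro h
    rcases trichotomous_of WellOrderingRel σ (cj c σ) with h' | h' | h'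
    · exact absurd h' h
    · exact absurd h'.symm (cj_ne c hc1 σ)
    · exact h'
  · intro h h'
    exact asymm_of WellOrderingRel h h'

include hc2 hc1 in
theorem card_half : (half c A).card = Fintype.card (K →ₐ[ℚ] A) / 2 := by
  classical
  have h2 : (half c A)ᶜ.card = (half c A).card := by
    refine Finset.card_bij' (fun σ _ => cj c σ) (fun σ _ => cj c σ) ?_ ?_ ?_ ?_
    · intro σ hσ
      rw [Finset.mem_compl] at hσ
      exact (not_mem_half c hc2 hc1 σ).1 hσ
    · intro σ hσ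
      rw [Finset.mem_compl, not_mem_half c hc2 hc1, cj_cj c hc2]
      exact hσ
    · intro σ _
      exact cj_cj c hc2 σ
    · intro σ _
      exact cj_cj c hc2 σ
  have h3 := Finset.card_compl_add_card (half c A)
  omega

end

end Pool.Agent.H485R3
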