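import Mathlib
import Pool.Agent.H485R3.Line

/-!
# No relations outside of a small set of exponents
-/

set_option autoImplicit false

namespace Pool.Agent.H485R3

open Polynomial Pool.Agent.H925R2

theorem line_norel {K : Type*} [Field K] [Algebra ℚ K] [FiniteDimensional ℚ K] (A : Type*)
    [Field A] [Algebra ℚ A] [Algebra.IsAlgebraic ℚ A] (p : ℕ) [Fact p.Prime]
    (c : K ≃ₐ[ℚ] K) (hc2 : ∀ z, c (c z) = z) (hc1 : ∃ z, c z ≠ z)
    (x₀ : K →ₐ[ℚ] PadicAlgCl p) (π ω : K) (q q' : ℚ) (hq : 0 < q) (hq' : 0 < q')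
    (hπ : π * c π = algebraMap ℚ K q) (hω : ω * c ω = algebraMap ℚ K q')
    (hx : ∀ x : K →ₐ[ℚ] PadicAlgCl p, x ≠ x₀ → x ≠ x₀.comp (c : K →ₐ[ℚ] K) →
      dev p q' (x ω) = 0) (h0 : dev p q' (x₀ ω) ≠ 0) :
    ∃ S : Finset ℕ, S.card ≤ Fintype.card (K →ₐ[ℚ] A) / 2 ∧ ∀ k ∉ S,
      ∀ a : (K →ₐ[ℚ] A) → ℝ, (∀ τ, a (cj c τ) = - a τ) →
        (∀ e : A →ₐ[ℚ] PadicAlgCl p,
          ∑ τ, a τ * dev p (q * q' ^ k) (e (τ (π * ω ^ k))) = 0) → ∀ τ, a τ = 0 := by
  classical
  choose e he using fun σ : K →ₐ[ℚ] A => exists_embedding p σ x₀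
  have hπ0 : π ≠ 0 := by
    rintro rfl
    rw [zero_mul] at hπ
    exact hq.ne' ((map_eq_zero _).1 hπ.symm)
  have hω0 : ω ≠ 0 := by
    rintro rfl
    rw [zero_mul] at hω
    exact hq'.ne' ((map_eq_zero _).1 hω.symm)
  set t₀ : ℝ := dev p q' (x₀ ω) with ht₀
  let B : Matrix (half c A) (half c A) ℝ := Matrix.of fun σ τ => dev p q (e σ.1 (τ.1 π))
  have hinj : Function.Injective (fun k : ℕ => - (k : ℝ) * t₀) := by
    intro k k' h
    have h1 := mul_right_cancel₀ h0 h
    exact_mod_cast neg_injective h1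
  let S : Finset ℕ := B.charpoly.roots.toFinset.preimage (fun k : ℕ => - (k : ℝ) * t₀)
    hinj.injOn
  refine ⟨S, ?_, ?_⟩
  · rw [← card_half c hc2 hc1 (A := A)]
    have h1 : S.card ≤ B.charpoly.roots.toFinset.card :=
      Finset.card_le_card_of_injOn (fun k : ℕ => - (k : ℝ) * t₀)
        (by
          intro k hk
          have h2 : k ∈ S := Finset.mem_coe.1 hk
          exact (Finset.mem_preimage (hf := hinj.injOn)).1 h2) hinj.injOn
    refine h1.trans ((Multiset.toFinset_card_le _).trans ((Polynomial.card_roots' _).trans ?_))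
    rw [Matrix.charpoly_natDegree_eq_dim, Fintype.card_coe]
  · intro k hk a ha hsum
    have hdiag : ∀ σ τ : half c A, dev p q' (e σ.1 (τ.1 ω)) = if σ = τ then t₀ else 0 := by
      intro σ τ
      split_ifs with h
      · subst h
        rw [he]
      · have h1 := hx ((e σ.1).comp τ.1) ?_ ?_
        · exact h1
        · intro h2
          apply h
          apply Subtype.ext
          ext z
          apply (e σ.1).toRingHom.injective
          have h3 : e σ.1 (τ.1 z) = x₀ z := congrArg (fun f : K →ₐ[ℚ] PadicAlgCl p => f z) h2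
          change e σ.1 (σ.1 z) = e σ.1 (τ.1 z)
          rw [h3, he]
        · intro h2
          have h4 : τ.1 = cj c σ.1 := by
            ext z
            apply (e σ.1).toRingHom.injective
            have h3 : e σ.1 (τ.1 z) = x₀ (c z) :=
              congrArg (fun f : K →ₐ[ℚ] PadicAlgCl p => f z) h2
            change e σ.1 (τ.1 z) = e σ.1 (σ.1 (c z))
            rw [h3, he]
          have h5 := σ.2
          have h6 : cj c σ.1 ∈ half c A := h4 ▸ τ.2
          exact ((not_mem_half c hc2 hc1 σ.1).2 h6) h5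
    have hdev : ∀ (e : A →ₐ[ℚ] PadicAlgCl p) (τ : K →ₐ[ℚ] A),
        dev p (q * q' ^ k) (e (τ (π * ω ^ k))) = dev p q (e (τ π)) + k * dev p q' (e (τ ω)) := by
      intro e τ
      rw [map_mul, map_mul, map_pow, map_pow, dev_mul p hq.ne' (pow_ne_zero _ hq'.ne') _ _
        ((map_ne_zero e).2 ((map_ne_zero τ).2 hπ0))
        (pow_ne_zero _ ((map_ne_zero e).2 ((map_ne_zero τ).2 hω0))), dev_pow_pow]
    have hanti : ∀ (e : A →ₐ[ℚ] PadicAlgCl p) (τ : K →ₐ[ℚ] A),
        dev p (q * q' ^ k) (e (cj c τ (π * ω ^ k))) = - dev p (q * q' ^ k) (e (τ (π * ω ^ k))) := by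
      intro e τ
      have h1 : c (π * ω ^ k) = algebraMap ℚ K (q * q' ^ k) / (π * ω ^ k) := by
        rw [eq_div_iff (mul_ne_zero hπ0 (pow_ne_zero _ hω0)), map_mul, map_pow, map_mul, map_pow,
          ← hπ, ← hω]
        ring
      have h2 : e (cj c τ (π * ω ^ k)) =
          ((q * q' ^ k : ℚ) : PadicAlgCl p) / e (τ (π * ω ^ k)) := by
        change e (τ (c (π * ω ^ k))) = _
        rw [h1, map_div₀, map_div₀, AlgHom.commutes, AlgHom.commutes]
        simp
      rw [h2]
      exact dev_inv p (mul_pos hq (pow_pos hq' _)).ne' _ ((map_ne_zero e).2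
        ((map_ne_zero τ).2 (mul_ne_zero hπ0 (pow_ne_zero _ hω0))))
    have hhalf : ∀ e : A →ₐ[ℚ] PadicAlgCl p,
        ∑ τ ∈ half c A, a τ * dev p (q * q' ^ k) (e (τ (π * ω ^ k))) = 0 := by
      intro e
      have h1 := hsum e
      rw [← Finset.sum_add_sum_compl (half c A)] at h1
      have h2 : ∑ τ ∈ (half c A)ᶜ, a τ * dev p (q * q' ^ k) (e (τ (π * ω ^ k))) =
          ∑ τ ∈ half c A, a τ * dev p (q * q' ^ k) (e (τ (π * ω ^ k))) := by
        refine Finset.sum_bij' (fun σ _ => cj c σ) (fun σ _ => cj c σ) ?_ ?_ ?_ ?_ ?_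
        · intro σ hσ
          rw [Finset.mem_compl] at hσ
          exact (not_mem_half c hc2 hc1 σ).1 hσ
        · intro σ hσ
          rw [Finset.mem_compl, not_mem_half c hc2 hc1, cj_cj c hc2]
          exact hσ
        · intro σ _
          exact cj_cj c hc2 σ
        · intro σ _
          exact cj_cj c hc2 σ
        · intro σ _
          rw [ha, hanti]
          ring
      rw [h2] at h1
      linarith
    set M : Matrix (half c A) (half c A) ℝ := B + ((k : ℝ) * t₀) • 1 with hM
    have hdet : M.det ≠ 0 := by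
      intro hdet
      apply hk
      rw [Finset.mem_preimage, Multiset.mem_toFinset, mem_roots (B.charpoly_monic.ne_zero),
        IsRoot.def, Matrix.eval_charpoly]
      have h1 : Matrix.scalar (half c A) (- (k : ℝ) * t₀) - B = - M := by
        rw [hM, Matrix.scalar_apply, ← Matrix.smul_one_eq_diagonal, neg_mul, neg_smul]
        abel
      rw [h1, Matrix.det_neg, hdet, mul_zero]
    have hmul : M.mulVec (fun τ => a τ.1) = 0 := by
      funext σ
      rw [Pi.zero_apply, ← hhalf (e σ.1), Matrix.mulVec, dotProduct, ← Finset.sum_coe_sort (half c A)]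
      refine Finset.sum_congr rfl fun τ _ => ?_
      rw [hdev, hdiag σ τ, hM, Matrix.add_apply, Matrix.smul_apply, Matrix.one_apply]
      simp only [B, Matrix.of_apply, smul_eq_mul]
      split_ifs <;> ring
    have hzero := Matrix.eq_zero_of_mulVec_eq_zero hdet hmul
    intro τ
    by_cases hτ : τ ∈ half c A
    · exact congrFun hzero ⟨τ, hτ⟩
    · have h1 := congrFun hzero ⟨cj c τ, (not_mem_half c hc2 hc1 τ).1 hτ⟩
      have h2 : a (cj c τ) = 0 := h1
      rw [ha] at h2
      linarith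

end Pool.Agent.H485R3
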