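import Mathlib
import Pool.Agent.H485R3.LineRel

/-!
# From the absence of relations between embeddings to balanced lists
-/

set_option autoImplicit false

namespace Pool.Agent.H485R3

open Polynomial Pool.Agent.H925R2

theorem exists_factor {K : Type*} [Field K] [Algebra ℚ K] [FiniteDimensional ℚ K] {A : Type*}
    [Field A] [Algebra ℚ A] [IsAlgClosed A] {Ω : Type*} [Field Ω] [Algebra ℚ Ω] [IsAlgClosed Ω]
    (j : A →ₐ[ℚ] Ω) (σ : K →ₐ[ℚ] Ω) : ∃ τ : K →ₐ[ℚ] A, ∀ w, j (τ w) = σ w := by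
  have hinj : Function.Injective (fun τ : K →ₐ[ℚ] A => j.comp τ) := by
    intro τ τ' h
    ext w
    apply j.toRingHom.injective
    exact congrArg (fun f : K →ₐ[ℚ] Ω => f w) h
  have hbij := (Fintype.bijective_iff_injective_and_card _).2
    ⟨hinj, by rw [AlgHom.card, AlgHom.card]⟩
  obtain ⟨τ, hτ⟩ := hbij.2 σ
  exact ⟨τ, fun w => congrArg (fun f : K →ₐ[ℚ] Ω => f w) hτ⟩

theorem list_balanced {K : Type*} [Field K] [Algebra ℚ K] [FiniteDimensional ℚ K] (A : Type*)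
    [Field A] [Algebra ℚ A] [IsAlgClosed A] [Algebra.IsAlgebraic ℚ A] (p : ℕ) [Fact p.Prime]
    (c : K ≃ₐ[ℚ] K) (hc2 : ∀ z, c (c z) = z)
    (ϖ : K) (q : ℚ) (hq : 0 < q) (hϖ : ϖ * c ϖ = algebraMap ℚ K q)
    (hno : ∀ a : (K →ₐ[ℚ] A) → ℝ, (∀ τ, a (cj c τ) = - a τ) →
      (∀ e : A →ₐ[ℚ] PadicAlgCl p, ∑ τ, a τ * dev p q (e (τ ϖ)) = 0) → ∀ τ, a τ = 0)
    {Ω : Type*} [Field Ω] [Algebra ℚ Ω] [IsAlgClosed Ω] [DecidableEq Ω]
    (L : List Ω) (m s : ℕ) (hs : 0 < s) (hlen : L.length = 2 * m)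
    (hL : ∀ y ∈ L, ∃ σ : K →ₐ[ℚ] Ω, σ ϖ = y)
    (hprod : L.prod ^ s = (algebraMap ℚ Ω q ^ m) ^ s) (z : Ω) (hz : z ≠ 0) :
    L.count z = L.count (algebraMap ℚ Ω q / z) := by
  classical
  let j : A →ₐ[ℚ] Ω := IsAlgClosed.lift
  have hϖ0 : ϖ ≠ 0 := by
    rintro rfl
    rw [zero_mul] at hϖ
    exact hq.ne' ((map_eq_zero _).1 hϖ.symm)
  have hex : ∀ k : Fin L.length, ∃ τ : K →ₐ[ℚ] A, j (τ ϖ) = L.get k := by
    intro k
    obtain ⟨σ, hσ⟩ := hL _ (L.get_mem k)
    obtain ⟨τ, hτ⟩ := exists_factor j σ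
    exact ⟨τ, by rw [hτ, hσ]⟩
  choose σ hσ using hex
  have hLprod : L.prod = ∏ k, L.get k := by
    rw [← List.prod_ofFn, List.ofFn_get]
  have hrel : (∏ k, σ k ϖ) ^ (2 * s) = (∏ _k : Fin L.length, (q : A)) ^ s := by
    apply (j : A →+* Ω).injective
    change j _ = j _
    rw [map_pow, map_prod, map_pow, map_prod, map_ratCast]
    simp only [hσ]
    rw [← hLprod, mul_comm 2 s, pow_mul, hprod, Finset.prod_const, Finset.card_univ,
      Fintype.card_fin, hlen, eq_ratCast]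
    ring
  have hsum : ∀ e : A →ₐ[ℚ] PadicAlgCl p, ∑ k, dev p q (e (σ k ϖ)) = 0 := fun e =>
    sum_dev p (fun _ => ()) (fun _ => q) (fun _ => hq) (fun k => σ k ϖ)
      (fun k => (map_ne_zero (σ k)).2 hϖ0) s hs hrel e
  let N : (K →ₐ[ℚ] A) → ℝ := fun τ => ((Finset.univ.filter fun k => σ k = τ).card : ℝ)
  have hsumN : ∀ e : A →ₐ[ℚ] PadicAlgCl p, ∑ τ, N τ * dev p q (e (τ ϖ)) = 0 := by
    intro e
    rw [← hsum e, ← Finset.sum_fiberwise Finset.univ σ]
    refine Finset.sum_congr rfl fun τ _ => ?_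
    rw [Finset.sum_congr rfl (fun k hk => by rw [(Finset.mem_filter.1 hk).2]),
      Finset.sum_const, nsmul_eq_mul]
  have hcjϖ : ∀ τ : K →ₐ[ℚ] A, cj c τ ϖ = algebraMap ℚ A q / τ ϖ := by
    intro τ
    rw [eq_div_iff ((map_ne_zero τ).2 hϖ0)]
    change τ (c ϖ) * τ ϖ = _
    rw [← map_mul, mul_comm, hϖ, AlgHom.commutes]
  have hanti : ∀ (e : A →ₐ[ℚ] PadicAlgCl p) (τ : K →ₐ[ℚ] A),
      dev p q (e (cj c τ ϖ)) = - dev p q (e (τ ϖ)) := by
    intro e τ
    rw [hcjϖ, map_div₀, AlgHom.commutes, eq_ratCast]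
    exact dev_inv p hq.ne' _ ((map_ne_zero e).2 ((map_ne_zero τ).2 hϖ0))
  have hbij : ∀ F : (K →ₐ[ℚ] A) → ℝ, ∑ τ, F (cj c τ) = ∑ τ, F τ := by
    intro F
    refine Finset.sum_bij' (fun σ _ => cj c σ) (fun σ _ => cj c σ) ?_ ?_ ?_ ?_ ?_
    · intro _ _; exact Finset.mem_univ _
    · intro _ _; exact Finset.mem_univ _
    · intro σ _; exact cj_cj c hc2 σ
    · intro σ _; exact cj_cj c hc2 σ
    · intro _ _; rfl
  have ha := hno (fun τ => N τ - N (cj c τ)) (by
      intro τ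
      rw [cj_cj c hc2]
      ring) (by
      intro e
      have h1 : ∑ τ, (N τ - N (cj c τ)) * dev p q (e (τ ϖ)) =
          ∑ τ, N τ * dev p q (e (τ ϖ)) + ∑ τ, N (cj c τ) * dev p q (e (cj c τ ϖ)) := by
        rw [← Finset.sum_add_distrib]
        refine Finset.sum_congr rfl fun τ _ => ?_
        rw [hanti]
        ring
      rw [h1, hsumN e, hbij (fun τ => N τ * dev p q (e (τ ϖ))), hsumN e, add_zero])
  have hcount : ∀ w : Ω, (L.count w : ℝ) = ∑ τ, if j (τ ϖ) = w then N τ else 0 := by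
    intro w
    have h1 : L.count w = (Finset.univ.filter fun k => L.get k = w).card := by
      have h2 : (L : Multiset Ω) = (Finset.univ : Finset (Fin L.length)).val.map L.get := by
        rw [Fin.univ_val_map, List.ofFn_get]
      rw [← Multiset.coe_count, h2, Multiset.count_map, ← Finset.filter_val, Finset.card_val]
      congr 1
      ext k
      simp [eq_comm]
    have h3 : (Finset.univ.filter fun k => L.get k = w).card =
        ∑ τ : K →ₐ[ℚ] A, (Finset.univ.filter fun k => L.get k = w ∧ σ k = τ).card := by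
      rw [Finset.card_eq_sum_card_fiberwise (f := σ) (t := Finset.univ)
        (fun _ _ => Finset.mem_coe.2 (Finset.mem_univ _))]
      refine Finset.sum_congr rfl fun τ _ => ?_
      rw [Finset.filter_filter]
    rw [h1, h3]
    push_cast
    refine Finset.sum_congr rfl fun τ _ => ?_
    split_ifs with h
    · simp only [N]
      congr 2
      ext k
      simp only [Finset.mem_filter, Finset.mem_univ, true_and]
      constructor
      · rintro ⟨_, h2⟩
        exact h2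
      · intro h2
        refine ⟨?_, h2⟩
        rw [← hσ k, h2, h]
    · rw [Nat.cast_eq_zero, Finset.card_eq_zero, Finset.filter_eq_empty_iff]
      rintro k _ ⟨h2, h3⟩
      apply h
      rw [← h3, hσ k, h2]
  have hfinal : (L.count z : ℝ) = (L.count (algebraMap ℚ Ω q / z) : ℝ) := by
    rw [hcount, hcount, ← hbij]
    refine Finset.sum_congr rfl fun τ _ => ?_
    have h1 : N (cj c τ) = N τ := by
      have h5 : N τ - N (cj c τ) = 0 := ha τ
      linarith
    rw [h1]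
    congr 1
    rw [hcjϖ, map_div₀, AlgHom.commutes]
    have h2 : j (τ ϖ) ≠ 0 := (map_ne_zero j).2 ((map_ne_zero τ).2 hϖ0)
    rw [eq_iff_iff]
    constructor
    · intro h
      rw [div_eq_iff h2] at h
      rw [eq_div_iff hz, h]
      ring
    · intro h
      rw [eq_div_iff hz] at h
      rw [div_eq_iff h2, ← h]
      ring
  exact_mod_cast hfinal

end Pool.Agent.H485R3
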