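import Mathlib
import Pool.Agent.H485R3.LineBal
import Pool.Agent.H485R3.K3Weil

/-!
# All but few Weil numbers on a line have no exotic Tate classes
-/

set_option autoImplicit false

namespace Pool.Agent.H485R3

open Pool.Agent.H925R2 NumberField NumberField.IsCMField

theorem exists_algClosure : ∃ (A : Type) (_ : Field A) (_ : Algebra ℚ A),
    IsAlgClosed A ∧ Algebra.IsAlgebraic ℚ A :=
  ⟨AlgebraicClosure ℚ, inferInstance, _, inferInstance, AlgebraicClosure.isAlgebraic ℚ⟩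

theorem good_of_norel {K : Type*} [Field K] [Algebra ℚ K] [FiniteDimensional ℚ K] (A : Type*)
    [Field A] [Algebra ℚ A] [IsAlgClosed A] [Algebra.IsAlgebraic ℚ A] (p : ℕ) [Fact p.Prime]
    (c : K ≃ₐ[ℚ] K) (hc2 : ∀ z, c (c z) = z) (hc1 : ∃ z, c z ≠ z)
    (ϖ : K) (N : ℕ) (hϖ : ϖ * c ϖ = algebraMap ℚ K ((p : ℚ) ^ N))
    (hno : ∀ a : (K →ₐ[ℚ] A) → ℝ, (∀ τ, a (cj c τ) = - a τ) →
      (∀ e : A →ₐ[ℚ] PadicAlgCl p, ∑ τ, a τ * dev p ((p : ℚ) ^ N) (e (τ ϖ)) = 0) → ∀ τ, a τ = 0)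
    {Ω : Type*} [Field Ω] [Algebra ℚ Ω] [IsAlgClosed Ω]
    {V : Type*} [AddCommGroup V] [Module Ω V] (F : V →ₗ[Ω] V)
    (hF : Submodule.span Ω {v : V | ∃ σ : K →ₐ[ℚ] Ω, F v = σ ϖ • v} = ⊤)
    (m s : ℕ) (hs : 0 < s) (x : ExteriorAlgebra Ω V) (hx : x ∈ ⋀[Ω]^(2 * m) V)
    (hFx : ExteriorAlgebra.map (F ^ s) x = (((p : Ω) ^ N) ^ m) ^ s • x) :
    x ∈ Algebra.adjoin Ω
      {y : ExteriorAlgebra Ω V | y ∈ ⋀[Ω]^2 V ∧ ExteriorAlgebra.map F y = (p : Ω) ^ N • y} := by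
  classical
  have hp : p.Prime := Fact.out
  have hq : (0 : ℚ) < (p : ℚ) ^ N := pow_pos (by exact_mod_cast hp.pos) _
  have hϖ0 : ϖ ≠ 0 := by
    rintro rfl
    rw [zero_mul] at hϖ
    exact hq.ne' ((map_eq_zero _).1 hϖ.symm)
  have hcjϖ : ∀ τ : K →ₐ[ℚ] A, cj c τ ϖ = algebraMap ℚ A ((p : ℚ) ^ N) / τ ϖ := by
    intro τ
    rw [eq_div_iff ((map_ne_zero τ).2 hϖ0)]
    change τ (c ϖ) * τ ϖ = _
    rw [← map_mul, mul_comm, hϖ, AlgHom.commutes]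
  have hanti : ∀ (e : A →ₐ[ℚ] PadicAlgCl p) (τ : K →ₐ[ℚ] A),
      dev p ((p : ℚ) ^ N) (e (cj c τ ϖ)) = - dev p ((p : ℚ) ^ N) (e (τ ϖ)) := by
    intro e τ
    rw [hcjϖ, map_div₀, AlgHom.commutes, eq_ratCast]
    exact dev_inv p hq.ne' _ ((map_ne_zero e).2 ((map_ne_zero τ).2 hϖ0))
  have hfix : c ϖ ≠ ϖ := by
    intro h
    let τ₀ : K →ₐ[ℚ] A := IsAlgClosed.lift
    have h1 := hno (fun τ => if τ = τ₀ then 1 else if τ = cj c τ₀ then -1 else 0) (by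
      intro τ
      have e1 : cj c τ = τ₀ ↔ τ = cj c τ₀ :=
        ⟨fun h => by rw [← h, cj_cj c hc2], fun h => by rw [h, cj_cj c hc2]⟩
      have e2 : cj c τ = cj c τ₀ ↔ τ = τ₀ :=
        ⟨fun h => by rw [← cj_cj c hc2 τ, h, cj_cj c hc2], fun h => by rw [h]⟩
      have e3 : cj c τ₀ ≠ τ₀ := cj_ne c hc1 τ₀
      simp only [e1, e2]
      by_cases h2 : τ = τ₀
      · have h3 : τ ≠ cj c τ₀ := fun h => e3 (by rw [← h, h2])
        simp [h2, e3.symm]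
      · by_cases h3 : τ = cj c τ₀
        · simp [h3, e3]
        · simp [h2, h3]) (by
      intro e
      refine Finset.sum_eq_zero fun τ _ => ?_
      have h2 := hanti e τ
      have h3 : cj c τ ϖ = τ ϖ := congrArg τ h
      rw [h3] at h2
      have h4 : dev p ((p : ℚ) ^ N) (e (τ ϖ)) = 0 := by linarith
      rw [h4, mul_zero]) τ₀
    simp at h1
  have hcastΩ : algebraMap ℚ Ω ((p : ℚ) ^ N) = (p : Ω) ^ N := by
    rw [map_pow, map_natCast]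
  refine mem_adjoin_of_balanced F ((p : Ω) ^ N) {μ : Ω | ∃ σ : K →ₐ[ℚ] Ω, σ ϖ = μ} ?_ ?_ m s ?_
    x hx hFx
  · rintro y ⟨σ, rfl⟩
    refine ⟨(map_ne_zero σ).2 hϖ0, fun h => hfix ?_⟩
    apply σ.toRingHom.injective
    change σ (c ϖ) = σ ϖ
    rw [← h, eq_div_iff ((map_ne_zero σ).2 hϖ0), ← map_mul, mul_comm, hϖ, AlgHom.commutes, hcastΩ]
  · rw [← hF]
    congr 1
    ext v
    constructor
    · rintro ⟨μ, ⟨σ, rfl⟩, h2⟩
      exact ⟨σ, h2⟩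
    · rintro ⟨σ, h2⟩
      exact ⟨σ ϖ, ⟨σ, rfl⟩, h2⟩
  · intro L hlen hL hprod y hy
    obtain ⟨σ, rfl⟩ := hy
    rw [← hcastΩ] at hprod ⊢
    exact list_balanced A p c hc2 ϖ ((p : ℚ) ^ N) hq hϖ hno L m s hs hlen hL hprod _
      ((map_ne_zero σ).2 hϖ0)

theorem mul_conj_eq (p : ℕ) {K : Type*} [Field K] [NumberField K] [IsCMField K] (π : K) (a : ℕ)
    (hπ : ∀ φ : K →+* ℂ, ‖φ π‖ ^ 2 = (p : ℝ) ^ a) : π * complexConj K π = (p : K) ^ a := by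
  let φ : K →+* ℂ := Classical.choice (inferInstance : Nonempty _)
  apply φ.injective
  rw [map_mul, complexEmbedding_complexConj, Complex.mul_conj, Complex.normSq_eq_norm_sq, hπ,
    map_pow, map_natCast]
  push_cast
  rfl

theorem line_main (p : ℕ) [Fact p.Prime] {K : Type*} [Field K] [NumberField K] [IsCMField K]
    (x₀ : K →+* ℚ_[p]) :
    ∃ (ω : K) (b : ℕ), 0 < b ∧ (IsIntegral ℤ ω ∧ ∀ φ : K →+* ℂ, ‖φ ω‖ ^ 2 = (p : ℝ) ^ b) ∧
    ∀ (π : K) (a : ℕ), (IsIntegral ℤ π ∧ ∀ φ : K →+* ℂ, ‖φ π‖ ^ 2 = (p : ℝ) ^ a) →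
    ∃ S : Finset ℕ, S.card ≤ Module.finrank ℚ K / 2 ∧ ∀ k ∉ S,
    ∀ {Ω : Type*} [Field Ω] [IsAlgClosed Ω] [CharZero Ω] {V : Type*} [AddCommGroup V] [Module Ω V]
      (F : V →ₗ[Ω] V), Submodule.span Ω {v : V | ∃ σ : K →+* Ω, F v = σ (π * ω ^ k) • v} = ⊤ →
    ∀ (m s : ℕ), 0 < s → ∀ x ∈ ⋀[Ω]^(2 * m) V,
      ExteriorAlgebra.map (F ^ s) x = (((p : Ω) ^ (a + b * k)) ^ m) ^ s • x →
      x ∈ Algebra.adjoin Ω {y : ExteriorAlgebra Ω V | y ∈ ⋀[Ω]^2 V ∧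
        ExteriorAlgebra.map F y = (p : Ω) ^ (a + b * k) • y} := by
  classical
  obtain ⟨ω, b, hb, hωint, hωw, hω1, hω2⟩ := exists_k3 p x₀
    ((algebraMap ℚ_[p] (PadicAlgCl p)).comp x₀) rfl
  refine ⟨ω, b, hb, ⟨hωint, hωw⟩, ?_⟩
  rintro π a ⟨_, hπw⟩
  obtain ⟨A, _, _, _, _⟩ := exists_algClosure
  have hp : p.Prime := Fact.out
  let c : K ≃ₐ[ℚ] K := (complexConj K).restrictScalars ℚ
  have hcv : ∀ z, c z = complexConj K z := fun z => rfl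
  have hc2 : ∀ z, c (c z) = z := complexConj_apply_apply K
  have hc1 : ∃ z, c z ≠ z := by
    by_contra h
    push Not at h
    exact complexConj_ne_one K (AlgEquiv.ext h)
  let x₁ : K →ₐ[ℚ] PadicAlgCl p := ((algebraMap ℚ_[p] (PadicAlgCl p)).comp x₀).toRatAlgHom
  have hq : (0 : ℚ) < (p : ℚ) ^ a := pow_pos (by exact_mod_cast hp.pos) _
  have hq' : (0 : ℚ) < (p : ℚ) ^ b := pow_pos (by exact_mod_cast hp.pos) _
  obtain ⟨S, hS1, hS2⟩ := line_norel A p c hc2 hc1 x₁ π ω ((p : ℚ) ^ a) ((p : ℚ) ^ b) hq hq'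
    (by rw [hcv, mul_conj_eq p π a hπw, map_pow, map_natCast])
    (by rw [hcv, mul_conj_eq p ω b hωw, map_pow, map_natCast])
    (by
      intro x hx hx'
      refine hω1 x.toRingHom ?_ ?_
      · intro h
        apply hx
        ext z
        exact congrArg (fun f : K →+* PadicAlgCl p => f z) h
      · intro h
        apply hx'
        ext z
        have h1 : x (complexConj K (complexConj K z)) = x₁ (complexConj K z) :=
          congrArg (fun f : K →+* PadicAlgCl p => f (complexConj K z)) h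
        rw [complexConj_apply_apply] at h1
        exact h1) hω2
  refine ⟨S, ?_, ?_⟩
  · rwa [AlgHom.card] at hS1
  · intro k hk Ω _ _ _ V _ _ F hF m s hs x hx hFx
    have hqk : (p : ℚ) ^ a * ((p : ℚ) ^ b) ^ k = (p : ℚ) ^ (a + b * k) := by
      rw [← pow_mul, pow_add]
    have hno := hS2 k hk
    rw [hqk] at hno
    refine good_of_norel A p c hc2 hc1 (π * ω ^ k) (a + b * k) ?_ hno F ?_ m s hs x hx hFx
    · rw [map_mul, map_pow, hcv, hcv]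
      have h1 := mul_conj_eq p π a hπw
      have h2 := mul_conj_eq p ω b hωw
      calc π * ω ^ k * (complexConj K π * complexConj K ω ^ k)
          = (π * complexConj K π) * (ω * complexConj K ω) ^ k := by ring
        _ = _ := by rw [h1, h2, ← pow_mul, ← pow_add, map_pow, map_natCast]
    · rw [← hF]
      congr 1
      ext v
      constructor
      · rintro ⟨σ, h2⟩
        exact ⟨σ.toRingHom, h2⟩
      · rintro ⟨σ, h2⟩
        exact ⟨σ.toRatAlgHom, h2⟩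

end Pool.Agent.H485R3
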